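import Pool.Agent.Helper71.BF.Dich

/-!
# The criterion

A nonempty back-and-forth set `W` on which the second player wins the game of length `ω` gives a
back-and-forth set closed under countable chains.
-/

open Set Cardinal FirstOrder FirstOrder.Language

namespace Helper71.BF

/-- bookkeeping -/
theorem exists_seq {P R : Type} (le : P → P → Prop) (H : P → R → P → Prop)
    (req : P → Set R) (hreq : ∀ p, (req p).Countable)
    (hext : ∀ p r, ∃ q, le p q ∧ H p r q) (hext' : ∀ p, ∃ q, le p q) (p₀ : P) :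
    ∃ p : ℕ → P, p 0 = p₀ ∧ (∀ n, le (p n) (p (n + 1))) ∧
      ∀ m, ∀ r ∈ req (p m), ∀ k, ∃ n, k ≤ n ∧ m ≤ n ∧ H (p n) r (p (n + 1)) := by
  classical
  choose ex hex1 hex2 using hext
  choose ex' hex' using hext'
  -- enumerations of the requirements
  have henum : ∀ p, ∃ e : ℕ → Option R, ∀ r ∈ req p, ∃ k, e k = some r := by
    intro p
    have := (hreq p).to_subtype
    obtain ⟨f, hf⟩ := exists_injective_nat (req p)
    refine ⟨fun k => if h : ∃ r : req p, f r = k then some h.choose.1 else none, ?_⟩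
    intro r hr
    refine ⟨f ⟨r, hr⟩, ?_⟩
    have h : ∃ r' : req p, f r' = f ⟨r, hr⟩ := ⟨_, rfl⟩
    have h2 : h.choose = ⟨r, hr⟩ := hf h.choose_spec
    simp only [dif_pos h, h2]
  choose e he using henum
  -- the sequence, as the list of its members up to `n`
  let nxt : (n : ℕ) → (ℕ → P) → P := fun n p =>
    match e (p (Nat.unpair (Nat.unpair n).1).1) (Nat.unpair (Nat.unpair n).1).2 with
    | some r => if (Nat.unpair (Nat.unpair n).1).1 ≤ n then ex (p n) r else ex' (p n)
    | none => ex' (p n)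
  -- approximations: `F n` is a function which is right up to `n`
  let F : ℕ → ℕ → P := fun n => Nat.rec (fun _ => p₀)
    (fun n f => fun k => if k ≤ n then f k else nxt n f) n
  have hF0 : ∀ k, F 0 k = p₀ := fun _ => rfl
  have hFs : ∀ n k, F (n + 1) k = if k ≤ n then F n k else nxt n (F n) := fun _ _ => rfl
  have hst : ∀ n m, n ≤ m → F m n = F n n := by
    intro n m hnm
    induction m, hnm using Nat.le_induction with
    | base => rfl
    | succ m hm ih => rw [hFs, if_pos hm, ih]
  refine ⟨fun n => F n n, rfl, ?_, ?_⟩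
  · intro n
    have h1 : F (n + 1) (n + 1) = nxt n (F n) := by
      rw [hFs, if_neg (by omega)]
    change le (F n n) (F (n + 1) (n + 1))
    rw [h1]
    change le (F n n) (match e (F n (Nat.unpair (Nat.unpair n).1).1)
      (Nat.unpair (Nat.unpair n).1).2 with
      | some r => if (Nat.unpair (Nat.unpair n).1).1 ≤ n then ex (F n n) r else ex' (F n n)
      | none => ex' (F n n))
    split
    · split
      · exact hex1 _ _
      · exact hex' _
    · exact hex' _
  · intro m r hr k
    obtain ⟨j, hj⟩ := he _ r hr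
    -- `n = pair (pair m j) (k + m + j)`
    let n := Nat.pair (Nat.pair m j) (k + m)
    have hn1 : (Nat.unpair n).1 = Nat.pair m j := by simp [n]
    have hn2 : Nat.unpair (Nat.pair m j) = (m, j) := by simp
    have hle : k + m ≤ n := Nat.right_le_pair _ _
    refine ⟨n, by omega, by omega, ?_⟩
    have h1 : F (n + 1) (n + 1) = nxt n (F n) := by
      rw [hFs, if_neg (by omega)]
    have h2 : nxt n (F n) = ex (F n n) r := by
      change (match e (F n (Nat.unpair (Nat.unpair n).1).1) (Nat.unpair (Nat.unpair n).1).2 with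
        | some r => if (Nat.unpair (Nat.unpair n).1).1 ≤ n then ex (F n n) r else ex' (F n n)
        | none => ex' (F n n)) = _
      rw [hn1, hn2]
      have h3 : F n m = F m m := hst m n (by omega)
      simp only [h3]
      rw [hj]
      simp only
      rw [if_pos (by omega)]
    change H (F n n) r (F (n + 1) (n + 1))
    rw [h1, h2]
    exact hex2 _ _

variable {L : FirstOrder.Language.{0, 0}} {M N : Type} [L.Structure M] [L.Structure N]

theorem exists_mem_of_chain {C : Set (Set (M × N))} (hne : C.Nonempty)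
    (hch : IsChain (· ⊆ ·) C) (n : ℕ) (z : Fin n → M × N) (hz : ∀ i, z i ∈ ⋃₀ C) :
    ∃ p ∈ C, ∀ i, z i ∈ p := by
  induction n with
  | zero =>
    obtain ⟨p, hp⟩ := hne
    exact ⟨p, hp, fun i => i.elim0⟩
  | succ n ih =>
    obtain ⟨p, hp, h1⟩ := ih (fun i => z i.castSucc) fun i => hz _
    obtain ⟨q, hq, h2⟩ := hz (Fin.last n)
    rcases hch.total hp hq with h | h
    · exact ⟨q, hq, fun i => Fin.lastCases h2 (fun i => h (h1 i)) i⟩
    · exact ⟨p, hp, fun i => Fin.lastCases (h h2) (fun i => h1 i) i⟩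

theorem isPos_sUnion {C : Set (Set (M × N))} (hne : C.Nonempty) (hch : IsChain (· ⊆ ·) C)
    (hc : C.Countable) (h : ∀ p ∈ C, IsPos L p) : IsPos L (⋃₀ C) := by
  refine ⟨?_, ?_, ?_, ?_, ?_⟩
  · intro a b b' h1 h2
    obtain ⟨p, hp, h3⟩ := exists_mem_of_chain hne hch 2 ![(a, b), (a, b')] (by
      intro i
      fin_cases i
      · exact h1
      · exact h2)
    exact (h p hp).fst_inj a b b' (h3 0) (h3 1)
  · intro a a' b h1 h2
    obtain ⟨p, hp, h3⟩ := exists_mem_of_chain hne hch 2 ![(a, b), (a', b)] (by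
      intro i
      fin_cases i
      · exact h1
      · exact h2)
    exact (h p hp).snd_inj a a' b (h3 0) (h3 1)
  · intro n f x y hxy
    obtain ⟨p, hp, h3⟩ := exists_mem_of_chain hne hch n (fun i => (x i, y i)) hxy
    exact ⟨p, hp, (h p hp).map_fun n f x y h3⟩
  · intro n r x y hxy
    obtain ⟨p, hp, h3⟩ := exists_mem_of_chain hne hch n (fun i => (x i, y i)) hxy
    exact (h p hp).map_rel n r x y h3
  · exact hc.sUnion fun p hp => (h p hp).countable

/-- domain and range -/
def DR (p : Set (M × N)) : Set M × Set N := (Prod.fst '' p, Prod.snd '' p)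

/-- a subset of a functional set which covers the domain of another subset contains it -/
theorem sub_of_covers {y p g : Set (M × N)} (hy : IsPos L y) (hp : p ⊆ y) (hg : g ⊆ y)
    (h : Covers p (DR g)) : g ⊆ p := by
  rintro ⟨a, b⟩ hab
  obtain ⟨⟨a', b'⟩, h1, h2⟩ := h.1 ⟨(a, b), hab, rfl⟩
  obtain rfl : a' = a := h2
  obtain rfl : b = b' := hy.fst_inj _ _ _ (hg hab) (hp h1)
  exact h1

section

variable (W : Set (Set (M × N))) (τ : (ℕ → Set (M × N)) → ℕ → Set (M × N))
  (code : Set (M × N) → M)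

/-- the elements of `W` in the hull of `y` and below `y` -/
def G (y : Set (M × N)) : Set (Set (M × N)) := {w | w ∈ W ∧ code w ∈ Prod.fst '' y ∧ w ⊆ y}

/-- `w 0, …, w (n-1)` are moves of a play; moves and answers are in `S` -/
def Play (S : Set (Set (M × N))) (w : ℕ → Set (M × N)) (n : ℕ) : Prop :=
  (∀ m < n, w m ∈ S ∧ τ w m ∈ S) ∧ ∀ m, m + 1 < n → τ w m ⊆ w (m + 1)

/-- closed (generic) positions -/
structure Gen (y : Set (M × N)) : Prop where
  pos : IsPos L y
  hull : ∀ w ∈ W, code w ∈ Prod.fst '' y → Covers y (DR w)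
  cover : ∀ z ∈ y, ∃ w ∈ G W code y, z ∈ w
  nonempty : (G W code y).Nonempty
  dir : ∀ g ∈ G W code y, ∀ g' ∈ G W code y, ∃ w ∈ G W code y, g ⊆ w ∧ g' ⊆ w
  next : ∀ w n, Play τ (G W code y) w n → ∀ g ∈ G W code y, ∃ w' ∈ G W code y, g ⊆ w' ∧
    (∀ m, m + 1 = n → τ w m ⊆ w') ∧ τ (Function.update w n w') n ∈ G W code y

end

variable {W : Set (Set (M × N))} {τ : (ℕ → Set (M × N)) → ℕ → Set (M × N)}
  {code : Set (M × N) → M}

theorem Play.congr (hloc : ∀ w w' n, (∀ m ≤ n, w m = w' m) → τ w n = τ w' n)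
    {S : Set (Set (M × N))} {w w' : ℕ → Set (M × N)} {n : ℕ} (h : ∀ m < n, w m = w' m)
    (hp : Play τ S w n) : Play τ S w' n := by
  have h2 : ∀ m < n, τ w m = τ w' m := fun m hm =>
    hloc _ _ _ fun k hk => h k (hk.trans_lt hm)
  refine ⟨fun m hm => ?_, fun m hm => ?_⟩
  · rw [← h m hm, ← h2 m hm]
    exact hp.1 m hm
  · rw [← h _ hm, ← h2 m (by omega)]
    exact hp.2 m hm

theorem G_mono {y y' : Set (M × N)} (h : y ⊆ y') : G W code y ⊆ G W code y' :=
  fun _ hw => ⟨hw.1, image_mono h hw.2.1, hw.2.2.trans h⟩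

/-- a closed position is contained in an element of `W` -/
theorem Gen.top (hloc : ∀ w w' n, (∀ m ≤ n, w m = w' m) → τ w n = τ w' n)
    (hwin : ∀ w, (∀ n, w n ∈ W) → (∀ n, τ w n ⊆ w (n + 1)) → ∃ u ∈ W, ∀ n, w n ⊆ u)
    (hcode : InjOn code W) {y : Set (M × N)} (hy : Gen (L := L) W τ code y) :
    ∃ u ∈ W, y ⊆ u := by
  classical
  have hcount : (G W code y).Countable := by
    have h1 : (code '' G W code y).Countable :=
      (hy.pos.countable.image _).mono (by
        rintro _ ⟨w, hw, rfl⟩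
        exact hw.2.1)
    exact Set.countable_of_injective_of_countable_image
      (hcode.mono fun w hw => hw.1) h1
  obtain ⟨g, hg⟩ := hcount.exists_eq_range hy.nonempty
  have hgm : ∀ n, g n ∈ G W code y := fun n => by rw [hg]; exact ⟨n, rfl⟩
  have hnext := hy.next
  choose f hf1 hf2 hf3 hf4 using hnext
  let F : ℕ → ℕ → Set (M × N) := fun n => Nat.rec (fun _ => g 0)
    (fun n w => if h : Play τ (G W code y) w n then
      Function.update w n (f w n h (g n) (hgm n)) else w) n
  have hFs : ∀ n, F (n + 1) = if h : Play τ (G W code y) (F n) n then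
      Function.update (F n) n (f (F n) n h (g n) (hgm n)) else F n := fun _ => rfl
  have hplay : ∀ n, Play τ (G W code y) (F n) n := by
    intro n
    induction n with
    | zero => exact ⟨fun m hm => absurd hm (Nat.not_lt_zero m), fun m hm => by omega⟩
    | succ n ih =>
      have h1 : F (n + 1) = Function.update (F n) n (f (F n) n ih (g n) (hgm n)) := by
        rw [hFs, dif_pos ih]
      have h2 : Play τ (G W code y) (F (n + 1)) n := by
        refine ih.congr hloc fun m hm => ?_
        rw [h1, Function.update_of_ne hm.ne]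
      refine ⟨fun m hm => ?_, fun m hm => ?_⟩
      · rcases Nat.lt_succ_iff_lt_or_eq.1 hm with h3 | rfl
        · exact h2.1 m h3
        · constructor
          · rw [h1, Function.update_self]
            exact hf1 _ _ _ _ _
          · rw [h1]
            exact hf4 _ _ _ _ _
      · rcases Nat.lt_succ_iff_lt_or_eq.1 hm with h3 | h3
        · exact h2.2 m h3
        · have h4 : τ (F (n + 1)) m = τ (F n) m := hloc _ _ _ fun k hk => by
            rw [h1, Function.update_of_ne (by omega)]
          rw [h4, h3]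
          have h5 : F (n + 1) n = f (F n) n ih (g n) (hgm n) := by
            rw [h1, Function.update_self]
          rw [h5]
          exact hf3 _ _ _ _ _ m h3
  have hstep : ∀ n, F (n + 1) = Function.update (F n) n (f (F n) n (hplay n) (g n) (hgm n)) := by
    intro n
    rw [hFs, dif_pos (hplay n)]
  have hst : ∀ n m, n < m → F m n = F (n + 1) n := by
    intro n m hnm
    induction m, hnm using Nat.le_induction with
    | base => rfl
    | succ m hm ih =>
      have hm' : n + 1 ≤ m := hm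
      rw [hstep m, Function.update_of_ne (by omega)]
      exact ih
  let w : ℕ → Set (M × N) := fun n => F (n + 1) n
  have hw : ∀ n, ∀ m < n, F n m = w m := fun n m hm => hst m n hm
  have hwp : ∀ n, Play τ (G W code y) w n := fun n => (hplay n).congr hloc (hw n)
  obtain ⟨u, hu, hu2⟩ := hwin w (fun n => ((hwp (n + 1)).1 n (Nat.lt_succ_self n)).1.1)
    (fun n => (hwp (n + 2)).2 n (by omega))
  refine ⟨u, hu, fun z hz => ?_⟩
  obtain ⟨v, hv, hzv⟩ := hy.cover z hz
  rw [hg] at hv
  obtain ⟨n, rfl⟩ := hv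
  refine hu2 n ?_
  have h5 : w n = f (F n) n (hplay n) (g n) (hgm n) := by
    change F (n + 1) n = _
    rw [hstep n, Function.update_self]
  rw [h5]
  exact hf2 _ _ _ _ _ hzv

/-- unions of countable chains of closed positions -/
theorem gen_sUnion
    {C : Set (Set (M × N))} (hne : C.Nonempty) (hch : IsChain (· ⊆ ·) C)
    (hc : C.Countable) (h : ∀ p ∈ C, Gen (L := L) W τ code p) :
    Gen (L := L) W τ code (⋃₀ C) := by
  have hpos : IsPos L (⋃₀ C) := isPos_sUnion hne hch hc fun p hp => (h p hp).pos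
  have hsub : ∀ p ∈ C, p ⊆ ⋃₀ C := fun p hp => subset_sUnion_of_mem hp
  have hG : ∀ w ∈ G W code (⋃₀ C), ∃ p ∈ C, w ∈ G W code p := by
    rintro w ⟨hw1, ⟨z, ⟨p, hp, hz⟩, hzw⟩, hw3⟩
    have h1 : code w ∈ Prod.fst '' p := ⟨z, hz, hzw⟩
    exact ⟨p, hp, hw1, h1, sub_of_covers hpos (hsub p hp) hw3 ((h p hp).hull w hw1 h1)⟩
  -- finitely many elements of `G` are in one `G p`
  have hfin : ∀ (n : ℕ) (v : ℕ → Set (M × N)), (∀ m < n, v m ∈ G W code (⋃₀ C)) →
      ∃ p ∈ C, ∀ m < n, v m ∈ G W code p := by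
    intro n v hv
    induction n with
    | zero =>
      obtain ⟨p, hp⟩ := hne
      exact ⟨p, hp, fun m hm => absurd hm (Nat.not_lt_zero m)⟩
    | succ n ih =>
      obtain ⟨p, hp, h1⟩ := ih fun m hm => hv m (hm.trans (Nat.lt_succ_self n))
      obtain ⟨q, hq, h2⟩ := hG _ (hv n (Nat.lt_succ_self n))
      rcases hch.total hp hq with h3 | h3
      · refine ⟨q, hq, fun m hm => ?_⟩
        rcases Nat.lt_succ_iff_lt_or_eq.1 hm with h4 | rfl
        · exact G_mono h3 (h1 m h4)
        · exact h2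
      · refine ⟨p, hp, fun m hm => ?_⟩
        rcases Nat.lt_succ_iff_lt_or_eq.1 hm with h4 | rfl
        · exact h1 m h4
        · exact G_mono h3 h2
  refine ⟨hpos, ?_, ?_, ?_, ?_, ?_⟩
  · rintro w hw ⟨z, ⟨p, hp, hz⟩, hzw⟩
    exact ((h p hp).hull w hw ⟨z, hz, hzw⟩).mono (hsub p hp)
  · rintro z ⟨p, hp, hz⟩
    obtain ⟨w, hw, hzw⟩ := (h p hp).cover z hz
    exact ⟨w, G_mono (hsub p hp) hw, hzw⟩
  · obtain ⟨p, hp⟩ := hne
    exact (h p hp).nonempty.mono (G_mono (hsub p hp))
  · intro g hg g' hg'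
    obtain ⟨p, hp, hgp⟩ := hG g hg
    obtain ⟨q, hq, hgq⟩ := hG g' hg'
    rcases hch.total hp hq with h3 | h3
    · obtain ⟨w, hw, h4⟩ := (h q hq).dir g (G_mono h3 hgp) g' hgq
      exact ⟨w, G_mono (hsub q hq) hw, h4⟩
    · obtain ⟨w, hw, h4⟩ := (h p hp).dir g hgp g' (G_mono h3 hgq)
      exact ⟨w, G_mono (hsub p hp) hw, h4⟩
  · intro w n hplay g hg
    obtain ⟨p, hp, h1⟩ := hfin n w fun m hm => (hplay.1 m hm).1
    obtain ⟨q, hq, h2⟩ := hfin n (fun m => τ w m) fun m hm => (hplay.1 m hm).2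
    obtain ⟨r, hr, h3⟩ := hG g hg
    -- the largest of the three
    obtain ⟨s, hs, hps, hqs, hrs⟩ : ∃ s ∈ C, p ⊆ s ∧ q ⊆ s ∧ r ⊆ s := by
      rcases hch.total hp hq with h4 | h4
      · rcases hch.total hq hr with h5 | h5
        · exact ⟨r, hr, h4.trans h5, h5, Subset.rfl⟩
        · exact ⟨q, hq, h4, Subset.rfl, h5⟩
      · rcases hch.total hp hr with h5 | h5
        · exact ⟨r, hr, h5, h4.trans h5, Subset.rfl⟩
        · exact ⟨p, hp, Subset.rfl, h4, h5⟩
    obtain ⟨w', hw', h6, h7, h8⟩ := (h s hs).next w n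
      ⟨fun m hm => ⟨G_mono hps (h1 m hm), G_mono hqs (h2 m hm)⟩, hplay.2⟩ g (G_mono hrs h3)
    exact ⟨w', G_mono (hsub s hs) hw', h6, h7, G_mono (hsub s hs) h8⟩

end Helper71.BF
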