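import Mathlib

/-!
# Back-and-forth sets and Ehrenfeucht-Fraisse games with countable pieces

Isomorphisms between substructures are given by their graphs (subsets of `M × N`); extension is
inclusion.
-/

open Set Cardinal FirstOrder FirstOrder.Language

namespace Helper71.BF

/-- `ω₁` as a well ordered type -/
abbrev K1 : Type := (Cardinal.aleph 1).ord.ToType

variable (L : FirstOrder.Language.{0, 0}) {M N : Type} [L.Structure M] [L.Structure N]

/-- `p` is the graph of an isomorphism between a substructure of `M` and a substructure of `N`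
(by `map_fun` its domain and its range are closed under the functions), and is countable -/
structure IsPos (p : Set (M × N)) : Prop where
  fst_inj : ∀ a b b', (a, b) ∈ p → (a, b') ∈ p → b = b'
  snd_inj : ∀ a a' b, (a, b) ∈ p → (a', b) ∈ p → a = a'
  map_fun : ∀ (n : ℕ) (f : L.Functions n) (x : Fin n → M) (y : Fin n → N),
    (∀ i, (x i, y i) ∈ p) → (Structure.funMap f x, Structure.funMap f y) ∈ p
  map_rel : ∀ (n : ℕ) (r : L.Relations n) (x : Fin n → M) (y : Fin n → N),
    (∀ i, (x i, y i) ∈ p) → (Structure.RelMap r x ↔ Structure.RelMap r y)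
  countable : p.Countable

/-- the domain of `p` contains `c.1` and its range contains `c.2` -/
def Covers (p : Set (M × N)) (c : Set M × Set N) : Prop :=
  c.1 ⊆ Prod.fst '' p ∧ c.2 ⊆ Prod.snd '' p

/-- a pair of countable sets -/
def Legal (c : Set M × Set N) : Prop := c.1.Countable ∧ c.2.Countable

/-- `I` is a (countable) back-and-forth set -/
structure IsBackForth (I : Set (Set (M × N))) : Prop where
  pos : ∀ p ∈ I, IsPos L p
  ext : ∀ p ∈ I, ∀ c : Set M × Set N, Legal c → ∃ q ∈ I, p ⊆ q ∧ Covers q c

variable (M N)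

/-- some back-and-forth set contains an upper bound of each of its countable chains -/
def BFEquiv : Prop :=
  ∃ I : Set (Set (M × N)), IsBackForth L I ∧
    ∀ C ⊆ I, C.Countable → IsChain (· ⊆ ·) C → ∃ q ∈ I, ∀ p ∈ C, p ⊆ q

/-- a winning strategy of the second player in the game of length `ω₁`: in round `α` the first
player plays the pair `c α` of countable sets, the answer `ans c α` depends on `c ξ`, `ξ ≤ α` -/
structure Strategy where
  ans : (K1 → Set M × Set N) → K1 → Set (M × N)
  local' : ∀ c c' α, (∀ ξ ≤ α, c ξ = c' ξ) → ans c α = ans c' α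
  pos : ∀ c, (∀ ξ, Legal (c ξ)) → ∀ α, IsPos L (ans c α)
  covers : ∀ c, (∀ ξ, Legal (c ξ)) → ∀ α, Covers (ans c α) (c α)
  mono : ∀ c, (∀ ξ, Legal (c ξ)) → ∀ α β, α ≤ β → ans c α ⊆ ans c β

variable {M N}

/-- the second player wins the game of length `ω` on `W` in which the players alternately choose
elements of `W`, each containing the one before: the first player chooses `w 0`, the second
`τ w 0`, the first `w 1` and so on; the second player wins if some element of `W` contains all of
them -/
def WinsOn (W : Set (Set (M × N))) : Prop :=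
  ∃ τ : (ℕ → Set (M × N)) → ℕ → Set (M × N),
    (∀ w w' n, (∀ m ≤ n, w m = w' m) → τ w n = τ w' n) ∧
    (∀ w n, (∀ m ≤ n, w m ∈ W) → (∀ m < n, τ w m ⊆ w (m + 1)) → τ w n ∈ W ∧ w n ⊆ τ w n) ∧
    (∀ w, (∀ n, w n ∈ W) → (∀ n, τ w n ⊆ w (n + 1)) → ∃ u ∈ W, ∀ n, w n ⊆ u)

/-- the plays `c`, `c'` agree in the rounds up to `α` -/
def AgreeUpTo (c c' : K1 → Set M × Set N) (α : K1) : Prop := ∀ ξ ≤ α, c ξ = c' ξ

/-- the set of positions (answers of the strategy) after the stage `(c, α)`: those reached in a
round `β ≥ α` of a play which agrees with `c` up to `α` -/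
def Strategy.After {L : FirstOrder.Language.{0, 0}} [L.Structure M] [L.Structure N]
    (σ : Strategy L M N) (c : K1 → Set M × Set N) (α : K1) : Set (Set (M × N)) :=
  {p | ∃ c' : K1 → Set M × Set N, (∀ ξ, Legal (c' ξ)) ∧ AgreeUpTo c c' α ∧
    ∃ β, α ≤ β ∧ p = σ.ans c' β}

end Helper71.BF
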