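import Pool.Agent.Helper71.BF.Defs

/-!
# The dichotomy

If after every stage of a winning strategy there are `#Λ` many pairwise incompatible positions,
and there are at most `#Λ` many pairs of countable sets, then there is a closed back-and-forth
set: `S u α` (`u : K1 → Λ`) is a stage, depending on `u` below `α` only, such that different
sequences lead to incompatible positions.
-/

open Set Cardinal FirstOrder FirstOrder.Language

namespace Helper71.BF

theorem K1.iic (a : K1) : (Iic a).Countable := by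
  have h2 : #(Iio a) < Cardinal.aleph 1 := Cardinal.mk_Iio_toType_ord_lt a
  have h3 : #(Iio a) ≤ ℵ₀ := Order.lt_succ_iff.1 (h2.trans_eq Cardinal.succ_aleph0.symm)
  have h4 : (Iio a).Countable := Cardinal.le_aleph0_iff_set_countable.1 h3
  rw [← Iio_insert]
  exact h4.insert a

instance K1.unc : Uncountable K1 := by
  rw [← Cardinal.aleph0_lt_mk_iff, Cardinal.mk_ord_toType]
  exact Cardinal.aleph0_lt_aleph_one

theorem K1.bdd (C : Set K1) (hC : C.Countable) : ∃ b, ∀ c ∈ C, c < b := by
  have h1 : (⋃ c ∈ C, Iic c).Countable := hC.biUnion fun c _ => K1.iic c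
  have h2 : (⋃ c ∈ C, Iic c) ≠ (Set.univ : Set K1) := by
    intro h
    rw [h] at h1
    exact Set.not_countable_univ h1
  obtain ⟨b, hb⟩ := (Set.ne_univ_iff_exists_notMem _).1 h2
  refine ⟨b, fun c hc => ?_⟩
  by_contra hcon
  exact hb (mem_biUnion hc (not_lt.1 hcon))

theorem K1.exists_gt (a : K1) : ∃ b, a < b := by
  obtain ⟨b, hb⟩ := K1.bdd {a} (Set.countable_singleton a)
  exact ⟨b, hb a rfl⟩

variable {L : FirstOrder.Language.{0, 0}} {M N : Type} [L.Structure M] [L.Structure N]

theorem Covers.mono {p q : Set (M × N)} {c : Set M × Set N} (h : Covers p c) (hpq : p ⊆ q) :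
    Covers q c :=
  ⟨h.1.trans (image_mono hpq), h.2.trans (image_mono hpq)⟩

/-- stages of plays -/
abbrev Stg (M N : Type) : Type := (K1 → Set M × Set N) × K1

/-- `t` extends `s` -/
def Ext (s t : Stg M N) : Prop := s.2 ≤ t.2 ∧ ∀ ξ ≤ s.2, s.1 ξ = t.1 ξ

theorem Ext.refl (s : Stg M N) : Ext s s := ⟨le_rfl, fun _ _ => rfl⟩

theorem Ext.trans {s t r : Stg M N} (h1 : Ext s t) (h2 : Ext t r) : Ext s r :=
  ⟨h1.1.trans h2.1, fun ξ hξ => (h1.2 ξ hξ).trans (h2.2 ξ (hξ.trans h1.1))⟩

def Leg (s : Stg M N) : Prop := ∀ ξ, Legal (s.1 ξ)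

/-- the position of a stage -/
def Strategy.at (σ : Strategy L M N) (s : Stg M N) : Set (M × N) := σ.ans s.1 s.2

theorem Strategy.at_mono (σ : Strategy L M N) {s t : Stg M N} (h : Ext s t) (ht : Leg t) :
    σ.at s ⊆ σ.at t := by
  unfold Strategy.at
  rw [σ.local' s.1 t.1 s.2 h.2]
  exact σ.mono t.1 ht _ _ h.1

/-- an upper bound of a family of stages -/
noncomputable def lim (α : K1) (g : (β : K1) → β < α → Stg M N) : Stg M N := by
  classical
  exact ⟨fun ξ => if h : ∃ β, ∃ hβ : β < α, ξ ≤ (g β hβ).2 then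
      (g h.choose h.choose_spec.choose).1 ξ else (∅, ∅),
    (K1.bdd (⋃ β : Iio α, {(g β.1 β.2).2}) (by
      have : Countable (Iio α) := ((K1.iic α).mono Iio_subset_Iic_self).to_subtype
      exact countable_iUnion fun β => countable_singleton _)).choose⟩

theorem lim_leg (α : K1) (g : (β : K1) → β < α → Stg M N) (hg : ∀ β hβ, Leg (g β hβ)) :
    Leg (lim α g) := by
  intro ξ
  unfold lim
  dsimp only
  split_ifs with h
  · exact hg _ _ ξ
  · exact ⟨countable_empty, countable_empty⟩

theorem ext_lim (α : K1) (g : (β : K1) → β < α → Stg M N)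
    (hg : ∀ β hβ β' hβ', β ≤ β' → Ext (g β hβ) (g β' hβ')) (β : K1) (hβ : β < α) :
    Ext (g β hβ) (lim α g) := by
  constructor
  · have h := (K1.bdd (⋃ β : Iio α, {(g β.1 β.2).2}) (by
      have : Countable (Iio α) := ((K1.iic α).mono Iio_subset_Iic_self).to_subtype
      exact countable_iUnion fun β => countable_singleton _)).choose_spec
    exact (h _ (mem_iUnion.2 ⟨⟨β, hβ⟩, rfl⟩)).le
  · intro ξ hξ
    unfold lim
    dsimp only
    have h : ∃ β, ∃ hβ : β < α, ξ ≤ (g β hβ).2 := ⟨β, hβ, hξ⟩
    rw [dif_pos h]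
    have h2 := h.choose_spec.choose_spec
    rcases le_total β h.choose with h3 | h3
    · exact (hg β hβ _ h.choose_spec.choose h3).2 ξ hξ
    · exact ((hg _ h.choose_spec.choose β hβ h3).2 ξ h2).symm

section Tree

variable {Λ : Type} (step : Stg M N → Λ → Stg M N)

/-- the stage of the node `u` restricted to `α` -/
noncomputable def node (u : K1 → Λ) : K1 → Stg M N :=
  (wellFounded_lt (α := K1)).fix fun α ih => lim α fun β hβ => step (ih β hβ) (u β)

theorem node_eq (u : K1 → Λ) (α : K1) :
    node step u α = lim α fun β _ => step (node step u β) (u β) :=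
  WellFounded.fix_eq _ _ _

theorem node_congr {u v : K1 → Λ} (α : K1) (h : ∀ β < α, u β = v β) :
    node step u α = node step v α := by
  induction α using WellFoundedLT.induction with
  | ind α ih =>
    rw [node_eq, node_eq]
    congr 1
    funext β hβ
    rw [ih β hβ fun γ hγ => h γ (hγ.trans hβ), h β hβ]

variable (hstep : ∀ s i, Leg s → Ext s (step s i) ∧ Leg (step s i))
include hstep

theorem node_spec (u : K1 → Λ) (α : K1) :
    Leg (node step u α) ∧ ∀ β < α, Ext (step (node step u β) (u β)) (node step u α) := by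
  induction α using WellFoundedLT.induction with
  | ind α ih =>
    rw [node_eq]
    refine ⟨lim_leg _ _ fun β hβ => (hstep _ _ (ih β hβ).1).2, ?_⟩
    intro β hβ
    refine ext_lim α (fun β _ => step (node step u β) (u β)) ?_ β hβ
    intro γ hγ γ' hγ' hle
    rcases eq_or_lt_of_le hle with rfl | hlt
    · exact Ext.refl _
    · exact ((ih γ' hγ').2 γ hlt).trans (hstep _ _ (ih γ' hγ').1).1

theorem node_ext (u : K1 → Λ) {α β : K1} (h : β ≤ α) : Ext (node step u β) (node step u α) := by
  rcases eq_or_lt_of_le h with rfl | hlt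
  · exact Ext.refl _
  · exact (hstep _ _ (node_spec step hstep u β).1).1.trans ((node_spec step hstep u α).2 β hlt)

end Tree

/-- the main construction -/
theorem bfEquiv_of_incompatible (σ : Strategy L M N) {Λ : Type}
    (e : Λ → Set M × Set N) (he : ∀ i, Legal (e i)) (hsurj : ∀ c, Legal c → ∃ i, e i = c)
    (hinc : ∀ s : Stg M N, Leg s → ∃ f : Λ → Stg M N, (∀ i, Leg (f i) ∧ Ext s (f i)) ∧
      ∀ i j, i ≠ j → ∀ t, Leg t → Ext s t → σ.at (f i) ⊆ σ.at t → ¬ σ.at (f j) ⊆ σ.at t) :
    BFEquiv L M N := by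
  classical
  choose f hf1 hf2 using hinc
  obtain ⟨i0, -⟩ := hsurj (∅, ∅) ⟨countable_empty, countable_empty⟩
  choose nx hnx using K1.exists_gt
  let g : Stg M N → Λ → Stg M N := fun s i => if h : Leg s then f s h i else s
  let step : Stg M N → Λ → Stg M N := fun s i =>
    (Function.update (g s i).1 (nx (g s i).2) (e i), nx (g s i).2)
  have hg : ∀ s i (h : Leg s), g s i = f s h i := fun s i h => dif_pos h
  have hstep' : ∀ s i, Leg s → Ext (g s i) (step s i) ∧ Leg (step s i) := by
    intro s i hs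
    refine ⟨⟨(hnx _).le, fun ξ hξ => ?_⟩, fun ξ => ?_⟩
    · exact (Function.update_of_ne (hξ.trans_lt (hnx _)).ne _ _).symm
    · change Legal (Function.update (g s i).1 (nx (g s i).2) (e i) ξ)
      by_cases h : ξ = nx (g s i).2
      · rw [h, Function.update_self]
        exact he i
      · rw [Function.update_of_ne h, hg s i hs]
        exact (hf1 s hs i).1 ξ
  have hstep : ∀ s i, Leg s → Ext s (step s i) ∧ Leg (step s i) := by
    intro s i hs
    refine ⟨Ext.trans ?_ (hstep' s i hs).1, (hstep' s i hs).2⟩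
    rw [hg s i hs]
    exact (hf1 s hs i).2
  have hcov : ∀ s i, Leg s → Covers (σ.at (step s i)) (e i) := by
    intro s i hs
    have h := σ.covers (step s i).1 (hstep s i hs).2 (step s i).2
    have h2 : (step s i).1 (step s i).2 = e i := Function.update_self _ _ _
    rwa [h2] at h
  have hN := fun u => node_spec step hstep u
  -- comparability
  have hcomp : ∀ u α v β, σ.at (node step u α) ⊆ σ.at (node step v β) →
      ∀ γ, γ < α → γ < β → u γ = v γ := by
    intro u α v β hsub
    by_contra hcon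
    push Not at hcon
    obtain ⟨δ, ⟨h1, h2, h3⟩, hmin⟩ := (wellFounded_lt (α := K1)).has_min
      {γ | γ < α ∧ γ < β ∧ u γ ≠ v γ} (by
        obtain ⟨γ, h1, h2, h3⟩ := hcon
        exact ⟨γ, h1, h2, h3⟩)
    have huv : ∀ γ < δ, u γ = v γ := by
      intro γ hγ
      by_contra hne
      exact hmin γ ⟨hγ.trans h1, hγ.trans h2, hne⟩ hγ
    have hs : node step u δ = node step v δ := node_congr step δ huv
    have hleg := (hN v δ).1
    have e1 := (hN u α).2 δ h1
    have e2 := (hN v β).2 δ h2
    rw [hs] at e1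
    refine hf2 _ hleg (u δ) (v δ) h3 (node step v β) (hN v β).1
      ((hstep _ _ hleg).1.trans e2) ?_ ?_
    · have h4 := σ.at_mono ((hstep' (node step v δ) (u δ) hleg).1.trans e1) (hN u α).1
      rw [hg _ _ hleg] at h4
      exact h4.trans hsub
    · have h4 := σ.at_mono ((hstep' (node step v δ) (v δ) hleg).1.trans e2) (hN v β).1
      rw [hg _ _ hleg] at h4
      exact h4
  refine ⟨{p | ∃ u α, p = σ.at (node step u α)}, ⟨?_, ?_⟩, ?_⟩
  · rintro p ⟨u, α, rfl⟩
    exact σ.pos _ (hN u α).1 _
  · rintro p ⟨u, α, rfl⟩ c hc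
    obtain ⟨i, rfl⟩ := hsurj c hc
    obtain ⟨α', hα'⟩ := K1.exists_gt α
    let u' := Function.update u α i
    have h1 : node step u α = node step u' α := node_congr step α fun β hβ =>
      (Function.update_of_ne hβ.ne _ _).symm
    have h2 := (hN u' α').2 α hα'
    have h3 : u' α = i := Function.update_self _ _ _
    rw [h3] at h2
    refine ⟨_, ⟨u', α', rfl⟩, ?_, ?_⟩
    · rw [h1]
      exact σ.at_mono (node_ext step hstep u' hα'.le) (hN u' α').1
    · exact (hcov _ _ (hN u' α).1).mono (σ.at_mono h2 (hN u' α').1)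
  · intro C hC hcount hchain
    have hch : ∀ p : C, ∃ u α, p.1 = σ.at (node step u α) := fun p => hC p.2
    choose u α hp using hch
    have : Countable C := hcount.to_subtype
    obtain ⟨b, hb⟩ := K1.bdd (range α) (countable_range α)
    let w : K1 → Λ := fun ξ => if h : ∃ p, ξ < α p then u h.choose ξ else i0
    have hw : ∀ p, ∀ ξ < α p, w ξ = u p ξ := by
      intro p ξ hξ
      have h : ∃ p, ξ < α p := ⟨p, hξ⟩
      have h1 : w ξ = u h.choose ξ := dif_pos h
      rw [h1]
      have h2 := h.choose_spec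
      rcases eq_or_ne h.choose p with h3 | h3
      · rw [h3]
      · rcases hchain h.choose.2 p.2 (fun h4 => h3 (Subtype.ext h4)) with h4 | h4
        · have h5 : h.choose.1 ⊆ p.1 := h4
          rw [hp h.choose, hp p] at h5
          exact hcomp _ _ _ _ h5 ξ h2 hξ
        · have h5 : p.1 ⊆ h.choose.1 := h4
          rw [hp h.choose, hp p] at h5
          exact (hcomp _ _ _ _ h5 ξ hξ h2).symm
    refine ⟨_, ⟨w, b, rfl⟩, ?_⟩
    intro p hpC
    have h1 := hp ⟨p, hpC⟩
    change p = _ at h1
    rw [h1, ← node_congr step (α ⟨p, hpC⟩) (hw ⟨p, hpC⟩)]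
    exact σ.at_mono (node_ext step hstep w (hb _ ⟨_, rfl⟩).le) (hN w b).1

end Helper71.BF
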