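import Pool.Agent.Helper71.BF.Main

/-!
# Cardinalities and the final statements
-/

open Set Cardinal FirstOrder FirstOrder.Language

namespace Helper71.BF

variable {L : FirstOrder.Language.{0, 0}} {M N : Type} [L.Structure M] [L.Structure N]

theorem mk_countable_le (X : Type) (lam : Cardinal.{0}) (h0 : ℵ₀ ≤ lam) (h1 : lam ^ ℵ₀ = lam)
    (hX : #X ≤ lam) : #{p : Set X // p.Countable} ≤ lam := by
  have h2 : #{p : Set X // #p ≤ ℵ₀} ≤ max #X ℵ₀ ^ ℵ₀ := Cardinal.mk_bounded_set_le X ℵ₀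
  have h3 : #{p : Set X // p.Countable} ≤ #{p : Set X // #p ≤ ℵ₀} :=
    Cardinal.mk_le_of_injective (f := fun p => ⟨p.1, Cardinal.le_aleph0_iff_set_countable.2 p.2⟩)
      (fun p q h => Subtype.ext (congrArg (fun t => t.1) h))
  refine h3.trans (h2.trans ?_)
  calc max #X ℵ₀ ^ ℵ₀ ≤ lam ^ ℵ₀ := Cardinal.power_le_power_right (max_le hX h0)
    _ = lam := h1

theorem exists_code (lam : Cardinal.{0}) (h0 : ℵ₀ ≤ lam) (h1 : lam ^ ℵ₀ = lam)
    (hM : #M = lam) (hN : #N ≤ lam) :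
    ∃ code : Set (M × N) → M, InjOn code {p | p.Countable} := by
  classical
  have h2 : #(M × N) ≤ lam := by
    rw [Cardinal.mk_prod, Cardinal.lift_id, Cardinal.lift_id, hM]
    exact (mul_le_mul_right hN lam).trans_eq (Cardinal.mul_eq_self h0)
  have h3 := mk_countable_le (M × N) lam h0 h1 h2
  rw [← hM] at h3
  obtain ⟨f⟩ := Cardinal.le_def _ _ |>.1 h3
  have hne : Nonempty M := by
    rw [← Cardinal.mk_ne_zero_iff, hM]
    exact (Cardinal.aleph0_pos.trans_le h0).ne'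
  obtain ⟨m⟩ := hne
  refine ⟨fun p => if h : p.Countable then f ⟨p, h⟩ else m, ?_⟩
  intro p hp q hq hpq
  have e1 : (if h : p.Countable then f ⟨p, h⟩ else m) = f ⟨p, hp⟩ := dif_pos hp
  have e2 : (if h : q.Countable then f ⟨q, h⟩ else m) = f ⟨q, hq⟩ := dif_pos hq
  have h4 : f ⟨p, hp⟩ = f ⟨q, hq⟩ := by
    rw [← e1, ← e2]
    exact hpq
  exact congrArg (fun t => t.1) (f.injective h4)

theorem exists_enum (lam : Cardinal.{0}) (h0 : ℵ₀ ≤ lam) (h1 : lam ^ ℵ₀ = lam)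
    (hM : #M = lam) (hN : #N ≤ lam) :
    ∃ e : M → Set M × Set N, (∀ i, Legal (e i)) ∧ ∀ c, Legal c → ∃ i, e i = c := by
  classical
  have h2 := mk_countable_le M lam h0 h1 hM.le
  have h3 := mk_countable_le N lam h0 h1 hN
  have h4 : #{c : Set M × Set N // Legal c} ≤ #M := by
    rw [hM]
    calc #{c : Set M × Set N // Legal c}
        ≤ #({p : Set M // p.Countable} × {p : Set N // p.Countable}) :=
          Cardinal.mk_le_of_injective (f := fun c => (⟨c.1.1, c.2.1⟩, ⟨c.1.2, c.2.2⟩)) (by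
            intro c d h
            have e1 : c.1.1 = d.1.1 := congrArg (fun t => t.1.1) h
            have e2 : c.1.2 = d.1.2 := congrArg (fun t => t.2.1) h
            exact Subtype.ext (Prod.ext e1 e2))
      _ ≤ lam * lam := by
          rw [Cardinal.mk_prod, Cardinal.lift_id, Cardinal.lift_id]
          exact mul_le_mul' h2 h3
      _ = lam := Cardinal.mul_eq_self h0
  obtain ⟨f⟩ := Cardinal.le_def _ _ |>.1 h4
  let d : {c : Set M × Set N // Legal c} := ⟨(∅, ∅), countable_empty, countable_empty⟩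
  refine ⟨fun i => if h : ∃ c, f c = i then h.choose.1 else d.1, ?_, ?_⟩
  · intro i
    dsimp only
    split_ifs with h
    · exact h.choose.2
    · exact d.2
  · intro c hc
    refine ⟨f ⟨c, hc⟩, ?_⟩
    have h : ∃ c', f c' = f ⟨c, hc⟩ := ⟨_, rfl⟩
    have h5 : h.choose = ⟨c, hc⟩ := f.injective h.choose_spec
    change (if h : ∃ c', f c' = f ⟨c, hc⟩ then h.choose.1 else d.1) = c
    rw [dif_pos h, h5]

/-- no `lam` pairwise incompatible positions after the stage `(c, α)` -/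
def Strategy.ChainCondition (σ : Strategy L M N) (c : K1 → Set M × Set N) (α : K1)
    (lam : Cardinal.{0}) : Prop :=
  ∀ A ⊆ σ.After c α, (∀ p ∈ A, ∀ q ∈ A, p ≠ q → ¬ ∃ r ∈ σ.After c α, p ⊆ r ∧ q ⊆ r) → #A < lam

theorem dichotomy (lam : Cardinal.{0}) (h0 : ℵ₀ ≤ lam) (h1 : lam ^ ℵ₀ = lam)
    (hM : #M = lam) (hN : #N ≤ lam) (σ : Strategy L M N) :
    BFEquiv L M N ∨ ∃ c α, (∀ ξ, Legal (c ξ)) ∧ σ.ChainCondition c α lam := by
  by_contra hcon
  push Not at hcon
  obtain ⟨hnot, hcc⟩ := hcon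
  apply hnot
  obtain ⟨e, he, hsurj⟩ := exists_enum lam h0 h1 hM hN
  refine bfEquiv_of_incompatible σ e he hsurj ?_
  intro s hs
  have h2 := hcc s.1 s.2 hs
  unfold Strategy.ChainCondition at h2
  push Not at h2
  obtain ⟨A, hA, hinc, hcard⟩ := h2
  rw [← hM] at hcard
  obtain ⟨f⟩ := Cardinal.le_def _ _ |>.1 hcard
  have hch : ∀ i : M, ∃ t : Stg M N, Leg t ∧ Ext s t ∧ (f i).1 = σ.at t := by
    intro i
    obtain ⟨c', hc', hag, β, hβ, hp⟩ := hA (f i).2
    exact ⟨(c', β), hc', ⟨hβ, hag⟩, hp⟩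
  choose F hF1 hF2 hF3 using hch
  refine ⟨F, fun i => ⟨hF1 i, hF2 i⟩, ?_⟩
  intro i j hij t ht hst hi hj
  refine hinc (f i).1 (f i).2 (f j).1 (f j).2 (fun h => hij (f.injective (Subtype.ext h)))
    (σ.at t) ⟨t.1, ht, hst.2, t.2, hst.1, rfl⟩ ?_ ?_
  · rw [hF3]
    exact hi
  · rw [hF3]
    exact hj

theorem After.pos {σ : Strategy L M N} {c : K1 → Set M × Set N} {α : K1} {p : Set (M × N)}
    (h : p ∈ σ.After c α) : IsPos L p := by
  obtain ⟨c', hc', -, β, -, rfl⟩ := h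
  exact σ.pos c' hc' β

/-- the chain condition bounds the number of images of an element -/
theorem images_lt (σ : Strategy L M N) (c : K1 → Set M × Set N) (α : K1) (lam : Cardinal.{0})
    (hcc : σ.ChainCondition c α lam) (a : M) :
    #{b | ∃ p ∈ σ.After c α, (a, b) ∈ p} < lam := by
  classical
  have hch : ∀ b : {b | ∃ p ∈ σ.After c α, (a, b) ∈ p}, ∃ p ∈ σ.After c α, (a, b.1) ∈ p :=
    fun b => b.2
  choose f hf1 hf2 using hch
  have hinj : Function.Injective f := by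
    intro b b' h
    have h1 := hf2 b
    rw [h] at h1
    exact Subtype.ext ((After.pos (hf1 b')).fst_inj _ _ _ h1 (hf2 b'))
  have h1 : #(range f) < lam := by
    refine hcc (range f) (by rintro _ ⟨b, rfl⟩; exact hf1 b) ?_
    rintro _ ⟨b, rfl⟩ _ ⟨b', rfl⟩ hne ⟨r, hr, h2, h3⟩
    apply hne
    congr 1
    exact Subtype.ext ((After.pos hr).fst_inj _ _ _ (h2 (hf2 b)) (h3 (hf2 b')))
  rwa [Cardinal.mk_range_eq f hinj] at h1

theorem preimages_lt (σ : Strategy L M N) (c : K1 → Set M × Set N) (α : K1) (lam : Cardinal.{0})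
    (hcc : σ.ChainCondition c α lam) (b : N) :
    #{a | ∃ p ∈ σ.After c α, (a, b) ∈ p} < lam := by
  classical
  have hch : ∀ a : {a | ∃ p ∈ σ.After c α, (a, b) ∈ p}, ∃ p ∈ σ.After c α, (a.1, b) ∈ p :=
    fun a => a.2
  choose f hf1 hf2 using hch
  have hinj : Function.Injective f := by
    intro a a' h
    have h1 := hf2 a
    rw [h] at h1
    exact Subtype.ext ((After.pos (hf1 a')).snd_inj _ _ _ h1 (hf2 a'))
  have h1 : #(range f) < lam := by
    refine hcc (range f) (by rintro _ ⟨a, rfl⟩; exact hf1 a) ?_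
    rintro _ ⟨a, rfl⟩ _ ⟨a', rfl⟩ hne ⟨r, hr, h2, h3⟩
    apply hne
    congr 1
    exact Subtype.ext ((After.pos hr).snd_inj _ _ _ (h2 (hf2 a)) (h3 (hf2 a')))
  rwa [Cardinal.mk_range_eq f hinj] at h1

/-- for structures `M`, `N` with `#M = lam` and `#N ≤ lam`: there is a back-and-forth set closed
under bounds of countable chains iff the second player wins on some nonempty back-and-forth set -/
def Criterion (L : FirstOrder.Language.{0, 0}) (lam : Cardinal.{0}) : Prop :=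
  ∀ (M N : Type) [L.Structure M] [L.Structure N], #M = lam → #N ≤ lam →
    (BFEquiv L M N ↔
      ∃ W : Set (Set (M × N)), W.Nonempty ∧ IsBackForth L W ∧ WinsOn W)

theorem criterion (L : FirstOrder.Language.{0, 0}) (lam : Cardinal.{0}) (h0 : ℵ₀ ≤ lam)
    (h1 : lam ^ ℵ₀ = lam) : Criterion L lam := by
  intro M N _ _ hM hN
  refine ⟨winsOn_of_bfEquiv, ?_⟩
  rintro ⟨W, hne, hW, hwin⟩
  obtain ⟨code, hcode⟩ := exists_code (M := M) (N := N) lam h0 h1 hM hN
  exact bfEquiv_of_winsOn hne hW hwin (hcode.mono fun p hp => (hW.pos p hp).countable)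

/-- the general form: it is enough that the family is not larger than `M` -/
theorem bfEquiv_of_card_le {W : Set (Set (M × N))} (hcard : #W ≤ #M) (hne : W.Nonempty)
    (hW : IsBackForth L W) (hwin : WinsOn W) : BFEquiv L M N := by
  classical
  obtain ⟨f⟩ := Cardinal.le_def _ _ |>.1 hcard
  obtain ⟨w0, hw0⟩ := hne
  refine bfEquiv_of_winsOn (code := fun p => if h : p ∈ W then f ⟨p, h⟩ else f ⟨w0, hw0⟩)
    ⟨w0, hw0⟩ hW hwin ?_
  intro p hp q hq hpq
  have e1 : (if h : p ∈ W then f ⟨p, h⟩ else f ⟨w0, hw0⟩) = f ⟨p, hp⟩ := dif_pos hp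
  have e2 : (if h : q ∈ W then f ⟨q, h⟩ else f ⟨w0, hw0⟩) = f ⟨q, hq⟩ := dif_pos hq
  have h4 : f ⟨p, hp⟩ = f ⟨q, hq⟩ := by
    rw [← e1, ← e2]
    exact hpq
  exact congrArg (fun t => t.1) (f.injective h4)

/-- under the continuum hypothesis `ℵ₂ ^ ℵ₀ = ℵ₂` -/
theorem aleph_two_power (hCH : Cardinal.continuum.{0} = ℵ_ 1) :
    (ℵ_ 2 : Cardinal.{0}) ^ ℵ₀ = ℵ_ 2 := by
  apply le_antisymm _ (Cardinal.self_le_power _ Cardinal.one_le_aleph0)
  set K : Type := (ℵ_ 2 : Cardinal.{0}).ord.ToType with hK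
  have hmk : #K = ℵ_ 2 := Cardinal.mk_ord_toType _
  have h12 : (ℵ_ 2 : Cardinal.{0}) = Order.succ (ℵ_ 1) := by
    rw [Cardinal.succ_aleph]
    congr 1
    norm_num
  have hlt : (ℵ_ 1 : Cardinal.{0}) < ℵ_ 2 := by
    rw [h12]
    exact Order.lt_succ _
  have hIio : ∀ a : K, #(Iio a) ≤ ℵ_ 1 := by
    intro a
    have h : #(Iio a) < ℵ_ 2 := Cardinal.mk_Iio_toType_ord_lt a
    exact Order.lt_succ_iff.1 (h.trans_eq h12)
  have hal1 : ℵ₀ ≤ (ℵ_ 1 : Cardinal.{0}) := Cardinal.aleph0_le_aleph 1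
  have hIic : ∀ a : K, #(Iic a) ≤ ℵ_ 1 := by
    intro a
    rw [← Iio_insert]
    exact (Cardinal.mk_insert_le).trans
      ((add_le_add_left (hIio a) 1).trans_eq (Cardinal.add_one_eq hal1))
  have hbdd : ∀ f : ℕ → K, ∃ b, ∀ n, f n < b := by
    intro f
    have h1 : #(⋃ n, Iic (f n)) ≤ ℵ_ 1 := by
      refine (Cardinal.mk_iUnion_le _).trans ?_
      rw [Cardinal.mk_nat]
      exact (mul_le_mul' hal1 (ciSup_le' fun n => hIic (f n))).trans_eq
        (Cardinal.mul_eq_self hal1)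
    have h2 : (⋃ n, Iic (f n)) ≠ (Set.univ : Set K) := by
      intro h
      rw [h, Cardinal.mk_univ, hmk] at h1
      exact absurd hlt (not_lt.2 h1)
    obtain ⟨b, hb⟩ := (Set.ne_univ_iff_exists_notMem _).1 h2
    refine ⟨b, fun n => ?_⟩
    by_contra hcon
    exact hb (mem_iUnion.2 ⟨n, not_lt.1 hcon⟩)
  choose b hb using hbdd
  have h3 : #(ℕ → K) ≤ #(Σ a : K, (ℕ → Iio a)) :=
    Cardinal.mk_le_of_injective (f := fun f => ⟨b f, fun n => ⟨f n, hb f n⟩⟩) (by
      intro f g h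
      have h4 : ∀ (p q : Σ a : K, (ℕ → Iio a)), p = q → ∀ n, (p.2 n).1 = (q.2 n).1 := by
        rintro p q rfl n
        rfl
      funext n
      exact h4 _ _ h n)
  have h5 : #(Σ a : K, (ℕ → Iio a)) ≤ ℵ_ 2 := by
    rw [Cardinal.mk_sigma]
    refine (Cardinal.sum_le_sum _ (fun _ => (ℵ_ 1 : Cardinal.{0})) fun a => ?_).trans ?_
    · calc #(ℕ → Iio a) = #(Iio a) ^ ℵ₀ := by simp
        _ ≤ (ℵ_ 1) ^ ℵ₀ := Cardinal.power_le_power_right (hIio a)
        _ = ℵ_ 1 := by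
          rw [← hCH]
          exact Cardinal.continuum_power_aleph0
    · rw [Cardinal.sum_const, Cardinal.lift_id, Cardinal.lift_id, hmk]
      exact (mul_le_mul_right hlt.le _).trans_eq
        (Cardinal.mul_eq_self (Cardinal.aleph0_le_aleph 2))
  have h6 : #(ℕ → K) = (ℵ_ 2 : Cardinal.{0}) ^ ℵ₀ := by simp [hmk]
  rw [← h6]
  exact h3.trans h5

end Helper71.BF
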