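import Pool.Agent.Helper71.BF.Sys

/-!
# Structures generated by a set all of whose permutations extend

Such structures (for example free algebras) are liberal.
-/

open Set Cardinal FirstOrder FirstOrder.Language

namespace Helper71.BF

variable {L : FirstOrder.Language.{0, 0}} {N : Type} [L.Structure N]

/-- every permutation of `X` extends to an automorphism of `N`, and `X` generates `N` -/
structure IsIndiscGen (L : FirstOrder.Language.{0, 0}) {N : Type} [L.Structure N]
    (X : Set N) : Prop where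
  gen : Substructure.closure L X = ⊤
  perm : ∀ g : Equiv.Perm X, ∃ h : N ≃[L] N, ∀ x : X, h x = g x

/-- `N` is free on `X`: `X` generates `N` and every map from `X` to `N` extends to an endomorphism
of `N` -/
structure IsFreeOn (L : FirstOrder.Language.{0, 0}) {N : Type} [L.Structure N]
    (X : Set N) : Prop where
  gen : Substructure.closure L X = ⊤
  ext : ∀ g : X → N, ∃ h : N →[L] N, ∀ x : X, h x = g x

theorem IsFreeOn.indiscGen {X : Set N} (hX : IsFreeOn L X) : IsIndiscGen L X := by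
  refine ⟨hX.gen, fun g => ?_⟩
  obtain ⟨h1, hh1⟩ := hX.ext fun x => (g x).1
  obtain ⟨h2, hh2⟩ := hX.ext fun x => (g.symm x).1
  have e1 : h2.comp h1 = Hom.id L N := by
    refine Hom.eq_of_eqOn_dense hX.gen fun x hx => ?_
    change h2 (h1 x) = x
    have h3 := hh1 ⟨x, hx⟩
    change h1 x = _ at h3
    rw [h3, hh2, Equiv.symm_apply_apply]
  have e2 : h1.comp h2 = Hom.id L N := by
    refine Hom.eq_of_eqOn_dense hX.gen fun x hx => ?_
    change h1 (h2 x) = x
    have h3 := hh2 ⟨x, hx⟩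
    change h2 x = _ at h3
    rw [h3, hh1, Equiv.apply_symm_apply]
  have l1 : ∀ x, h2 (h1 x) = x := fun x => DFunLike.congr_fun e1 x
  have l2 : ∀ x, h1 (h2 x) = x := fun x => DFunLike.congr_fun e2 x
  refine ⟨⟨⟨h1, h2, l1, l2⟩, fun f x => h1.map_fun f x, fun r x => ⟨fun h => ?_, fun h => ?_⟩⟩,
    hh1⟩
  · have h3 := h2.map_rel r _ h
    have h4 : h2 ∘ (h1 ∘ x) = x := funext fun i => l1 (x i)
    have h5 : h2 ∘ ((⟨h1, h2, l1, l2⟩ : N ≃ N).toFun ∘ x) = x := h4
    rwa [h5] at h3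
  · exact h1.map_rel r x h

/-- the restriction of the automorphism `h` to the substructure generated by `Y` -/
def gr (h : N ≃[L] N) (Y : Set N) : Set (N × N) :=
  {z | z.1 ∈ Substructure.closure L Y ∧ z.2 = h z.1}

variable [Countable (Σ n, L.Functions n)]

theorem closure_countable {Y : Set N} (hY : Y.Countable) :
    (Substructure.closure L Y : Set N).Countable := by
  have h1 := Substructure.lift_card_closure_le (L := L) (s := Y)
  rw [Cardinal.lift_id, Cardinal.lift_id, Cardinal.lift_id] at h1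
  have h2 : #Y ≤ ℵ₀ := Cardinal.le_aleph0_iff_set_countable.2 hY
  have h3 : #(Σ n, L.Functions n) ≤ ℵ₀ := Cardinal.mk_le_aleph0
  apply Cardinal.le_aleph0_iff_set_countable.1
  refine le_trans h1 ?_
  rw [max_le_iff]
  exact ⟨le_rfl, (add_le_add h2 h3).trans_eq Cardinal.aleph0_add_aleph0⟩

theorem gr_pos (h : N ≃[L] N) {Y : Set N} (hY : Y.Countable) : IsPos L (gr h Y) := by
  have hYc := closure_countable (L := L) hY
  refine ⟨?_, ?_, ?_, ?_, ?_⟩
  · rintro a b b' ⟨-, h1⟩ ⟨-, h2⟩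
    exact h1.trans h2.symm
  · rintro a a' b ⟨-, h1⟩ ⟨-, h2⟩
    exact h.injective (h1.symm.trans h2)
  · intro n F x y hxy
    have h1 : y = h ∘ x := funext fun i => (hxy i).2
    refine ⟨Substructure.fun_mem _ F x fun i => (hxy i).1, ?_⟩
    rw [h1]
    exact (h.map_fun F x).symm
  · intro n r x y hxy
    have h1 : y = h ∘ x := funext fun i => (hxy i).2
    rw [h1]
    exact (h.map_rel r x).symm
  · refine (hYc.image fun a => (a, h a)).mono ?_
    rintro ⟨a, b⟩ ⟨h1, h2⟩
    change b = h a at h2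
    exact ⟨a, h1, by rw [h2]⟩

omit [Countable (Σ n, L.Functions n)] in
theorem exists_support {X : Set N} (hX : Substructure.closure L X = ⊤) (a : N) :
    ∃ Y ⊆ X, Y.Countable ∧ a ∈ Substructure.closure L Y := by
  have ha : a ∈ Substructure.closure L X := by
    rw [hX]
    exact Substructure.mem_top a
  refine Substructure.closure_induction (p := fun a => ∃ Y ⊆ X, Y.Countable ∧
    a ∈ Substructure.closure L Y) ha ?_ ?_
  · intro x hx
    exact ⟨{x}, singleton_subset_iff.2 hx, countable_singleton x,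
      Substructure.subset_closure (mem_singleton x)⟩
  · intro n f x hx
    choose Y h1 h2 h3 using hx
    refine ⟨⋃ i, Y i, iUnion_subset h1, countable_iUnion h2, ?_⟩
    exact Substructure.fun_mem _ f x fun i =>
      Substructure.closure_mono (subset_iUnion Y i) (h3 i)

omit [Countable (Σ n, L.Functions n)] in
theorem exists_support_set {X : Set N} (hX : Substructure.closure L X = ⊤) {A : Set N}
    (hA : A.Countable) : ∃ Y ⊆ X, Y.Countable ∧ A ⊆ Substructure.closure L Y := by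
  choose Y h1 h2 h3 using exists_support (L := L) hX
  refine ⟨⋃ a ∈ A, Y a, iUnion₂_subset fun a _ => h1 a, hA.biUnion fun a _ => h2 a, ?_⟩
  intro a ha
  exact Substructure.closure_mono (subset_biUnion_of_mem (u := Y) ha) (h3 a)

omit [Countable (Σ n, L.Functions n)] in
theorem gr_mono {h h' : N ≃[L] N} {Y Y' : Set N} (hY : Y ⊆ Y') (hh : ∀ y ∈ Y, h y = h' y) :
    gr h Y ⊆ gr h' Y' := by
  rintro z ⟨h1, h2⟩
  refine ⟨Substructure.closure_mono hY h1, h2.trans ?_⟩
  exact Hom.eqOn_closure (f := h.toHom) (g := h'.toHom) (s := Y) (fun y hy => hh y hy) h1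

/-- the family of all restrictions of automorphisms which permute `X` to countably generated
pieces -/
def KK (L : FirstOrder.Language.{0, 0}) {N : Type} [L.Structure N] (X : Set N) :
    Set (Set (N × N)) :=
  {k | ∃ (h : N ≃[L] N) (g : Equiv.Perm X) (Y : Set N), (∀ x : X, h x = g x) ∧ Y ⊆ X ∧
    Y.Countable ∧ k = gr h Y}

theorem isLiberal_KK (lam : Cardinal.{0}) (hlam : ℵ₀ < lam) {X : Set N} (hX : #X = lam)
    (hgen : IsIndiscGen L X) : IsLiberal L (KK L X) lam := by
  classical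
  have hmem : ∀ {Y : Set N}, ∀ y ∈ Y, y ∈ Substructure.closure L Y := fun y hy =>
    Substructure.subset_closure hy
  refine ⟨?_, ⟨?_, ?_⟩, ?_, ?_⟩
  · obtain ⟨h, hh⟩ := hgen.perm 1
    exact ⟨_, h, 1, ∅, hh, empty_subset _, countable_empty, rfl⟩
  · rintro _ ⟨h, g, Y, -, -, hY, rfl⟩
    exact gr_pos h hY
  · rintro _ ⟨h, g, Y, hg, hYX, hY, rfl⟩ c hc
    obtain ⟨Z, hZX, hZ, hcZ⟩ := exists_support_set (L := L) hgen.gen (hc.1.union
      (hc.2.image h.symm))
    refine ⟨_, ⟨h, g, Y ∪ Z, hg, union_subset hYX hZX, hY.union hZ, rfl⟩,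
      gr_mono subset_union_left fun _ _ => rfl, ?_, ?_⟩
    · intro a ha
      exact ⟨(a, h a), ⟨Substructure.closure_mono subset_union_right (hcZ (Or.inl ha)), rfl⟩,
        rfl⟩
    · intro b hb
      refine ⟨(h.symm b, b), ⟨Substructure.closure_mono subset_union_right
        (hcZ (Or.inr ⟨b, hb, rfl⟩)), ?_⟩, rfl⟩
      exact (h.apply_symm_apply b).symm
  · intro C hC hcount hch
    have hch' : ∀ k : C, ∃ (h : N ≃[L] N) (g : Equiv.Perm X) (Y : Set N),
        (∀ x : X, h x = g x) ∧ Y ⊆ X ∧ Y.Countable ∧ k.1 = gr h Y := fun k => hC k.2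
    choose h g Y hg hYX hY hk using hch'
    have : Countable C := hcount.to_subtype
    have hin : ∀ k : C, ∀ x : X, x.1 ∈ Y k → (x.1, (g k x).1) ∈ k.1 := by
      intro k x hx
      rw [hk k]
      exact ⟨hmem _ hx, (hg k x).symm⟩
    have htot : ∀ k k' : C, ∃ k'' : C, k.1 ⊆ k''.1 ∧ k'.1 ⊆ k''.1 := by
      intro k k'
      rcases hch.total k.2 k'.2 with h | h
      · exact ⟨k', h, Subset.rfl⟩
      · exact ⟨k, Subset.rfl, h⟩
    have hposk : ∀ k : C, IsPos L k.1 := fun k => by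
      rw [hk k]
      exact gr_pos _ (hY k)
    let s : Set X := {x | ∃ k, x.1 ∈ Y k}
    have hs : ∀ x : s, ∃ k, x.1.1 ∈ Y k := fun x => x.2
    choose kk hkk using hs
    have hval : ∀ (x : s) (k : C), x.1.1 ∈ Y k → g (kk x) x.1 = g k x.1 := by
      intro x k hx
      obtain ⟨k'', h1, h2⟩ := htot (kk x) k
      exact Subtype.ext ((hposk k'').fst_inj _ _ _ (h1 (hin _ _ (hkk x))) (h2 (hin _ _ hx)))
    let f : s ↪ X := ⟨fun x => g (kk x) x.1, by
      intro x x' hxx
      obtain ⟨k'', h1, h2⟩ := htot (kk x) (kk x')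
      have h3 := h1 (hin _ _ (hkk x))
      have h4 := h2 (hin _ _ (hkk x'))
      have h5 : g (kk x) x.1 = g (kk x') x'.1 := hxx
      rw [h5] at h3
      exact Subtype.ext (Subtype.ext ((hposk k'').snd_inj _ _ _ h3 h4))⟩
    have hsc : s.Countable := by
      have h1 : (⋃ k, Y k).Countable := countable_iUnion hY
      refine (h1.preimage Subtype.val_injective).mono ?_
      rintro x ⟨k, hx⟩
      exact mem_iUnion.2 ⟨k, hx⟩
    obtain ⟨G, hG⟩ := Cardinal.extend_function_of_lt f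
      ((Cardinal.le_aleph0_iff_set_countable.2 hsc).trans_lt (hX ▸ hlam)) ⟨Equiv.refl X⟩
    obtain ⟨H, hH⟩ := hgen.perm G
    refine ⟨gr H (⋃ k, Y k), ⟨H, G, _, hH, iUnion_subset hYX, countable_iUnion hY, rfl⟩, ?_⟩
    intro p hp
    have hkp : p = gr (h ⟨p, hp⟩) (Y ⟨p, hp⟩) := hk ⟨p, hp⟩
    rw [hkp]
    refine gr_mono (subset_iUnion Y _) fun y hy => ?_
    have hyX : y ∈ X := hYX _ hy
    have h1 := hg ⟨p, hp⟩ ⟨y, hyX⟩
    have h2 := hH ⟨y, hyX⟩
    have h3 := hG ⟨⟨y, hyX⟩, ⟨_, hy⟩⟩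
    have h4 : G ⟨y, hyX⟩ = g ⟨p, hp⟩ ⟨y, hyX⟩ := h3.trans (hval ⟨⟨y, hyX⟩, ⟨_, hy⟩⟩ _ hy)
    change h ⟨p, hp⟩ y = _ at h1
    change H y = _ at h2
    rw [h1, h2, h4]
  · rintro _ ⟨h, g, Y, hg, hYX, hY, rfl⟩
    have hne : ∃ x ∈ X, x ∉ Y := by
      by_contra hcon
      push Not at hcon
      have h1 : #X ≤ ℵ₀ := Cardinal.le_aleph0_iff_set_countable.2 (hY.mono hcon)
      exact absurd (hX ▸ hlam) (not_lt.2 h1)
    obtain ⟨x, hx, hxY⟩ := hne
    refine ⟨x, ?_⟩
    have h1 : lam ≤ #(↥(X \ (h '' Y))) := by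
      by_contra hcon
      have h2 := Cardinal.le_mk_sdiff_add_mk X (h '' Y)
      have h3 : #(↥(h '' Y)) < lam :=
        (Cardinal.le_aleph0_iff_set_countable.2 (hY.image h)).trans_lt hlam
      have h4 := Cardinal.add_lt_of_lt hlam.le (not_le.1 hcon) h3
      rw [hX] at h2
      exact absurd h4 (not_lt.2 h2)
    refine h1.trans (Cardinal.mk_le_mk_of_subset ?_)
    rintro x' ⟨hx', hx'Y⟩
    let g' : Equiv.Perm X := Equiv.swap (g ⟨x, hx⟩) ⟨x', hx'⟩ * g
    obtain ⟨h', hh'⟩ := hgen.perm g'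
    refine ⟨_, ⟨h', g', insert x Y, hh', insert_subset hx hYX, hY.insert x, rfl⟩, ?_, ?_⟩
    · refine gr_mono (subset_insert x Y) fun y hy => ?_
      have h2 := hg ⟨y, hYX hy⟩
      have h3 := hh' ⟨y, hYX hy⟩
      have h4 : g' ⟨y, hYX hy⟩ = g ⟨y, hYX hy⟩ := by
        refine Equiv.swap_apply_of_ne_of_ne ?_ ?_
        · intro h5
          have h6 := g.injective h5
          have h7 : y = x := congrArg Subtype.val h6
          exact hxY (h7 ▸ hy)
        · intro h5
          apply hx'Y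
          have h6 : (g ⟨y, hYX hy⟩).1 = x' := congrArg Subtype.val h5
          exact ⟨y, hy, h2.trans h6⟩
      change h y = _ at h2
      change h' y = _ at h3
      rw [h2, h3, h4]
    · refine ⟨hmem _ (mem_insert x Y), ?_⟩
      have h3 := hh' ⟨x, hx⟩
      have h4 : g' ⟨x, hx⟩ = ⟨x', hx'⟩ := Equiv.swap_apply_left _ _
      rw [h4] at h3
      exact h3.symm

theorem mk_of_indiscGen (lam : Cardinal.{0}) (hlam : ℵ₀ ≤ lam) {X : Set N} (hX : #X = lam)
    (hgen : IsIndiscGen L X) : #N = lam := by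
  apply le_antisymm
  · have h1 := Substructure.lift_card_closure_le (L := L) (s := X)
    rw [Cardinal.lift_id, Cardinal.lift_id, Cardinal.lift_id, hgen.gen, hX] at h1
    have h3 : #(Σ n, L.Functions n) ≤ ℵ₀ := Cardinal.mk_le_aleph0
    have h4 : #N = #(⊤ : L.Substructure N) :=
      (Cardinal.mk_congr (Substructure.topEquiv (L := L) (M := N)).toEquiv).symm
    rw [h4]
    refine h1.trans (max_le hlam ?_)
    exact (add_le_add le_rfl (h3.trans hlam)).trans_eq (Cardinal.add_eq_self hlam)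
  · rw [← hX]
    exact Cardinal.mk_set_le X

end Helper71.BF
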