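import Pool.Agent.Helper71.BF.Indisc

/-!
# The two relations agree if one structure is liberal
-/

open Set Cardinal FirstOrder FirstOrder.Language

namespace Helper71.BF

theorem agree_of_liberal (L : FirstOrder.Language.{0, 0}) (lam : Cardinal.{0}) (h0 : ℵ₀ ≤ lam)
    (h1 : lam ^ ℵ₀ = lam) (M N : Type) [L.Structure M] [L.Structure N] (hM : #M ≤ lam)
    (hN : #N = lam) (K : Set (Set (N × N))) (hK : IsLiberal L K lam) :
    Nonempty (Strategy L M N) ↔ BFEquiv L M N :=
  ⟨fun ⟨σ⟩ => bfEquiv_of_liberal lam h0 h1 hM hN K hK σ, strategy_of_bfEquiv⟩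

theorem agree_of_indiscGen (L : FirstOrder.Language.{0, 0}) [Countable (Σ n, L.Functions n)]
    (lam : Cardinal.{0}) (h0 : ℵ₀ ≤ lam)
    (h1 : lam ^ ℵ₀ = lam) (M N : Type) [L.Structure M] [L.Structure N] (hM : #M ≤ lam)
    (X : Set N) (hX : #X = lam) (hgen : IsIndiscGen L X) :
    Nonempty (Strategy L M N) ↔ BFEquiv L M N := by
  have hlam : ℵ₀ < lam := by
    calc ℵ₀ < 2 ^ ℵ₀ := Cardinal.cantor _
      _ ≤ lam ^ ℵ₀ := Cardinal.power_le_power_right
        ((Cardinal.natCast_lt_aleph0 (n := 2)).le.trans h0)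
      _ = lam := h1
  exact agree_of_liberal L lam h0 h1 M N hM (mk_of_indiscGen lam h0 hX hgen) (KK L X)
    (isLiberal_KK lam hlam hX hgen)

/-- for `#M ≤ lam`: the second player wins the game iff there is a closed back-and-forth set, if
`N` is liberal, or generated by a set of cardinality `lam` all of whose permutations extend to
automorphisms, or free on a set of cardinality `lam` -/
def Agree (L : FirstOrder.Language.{0, 0}) (lam : Cardinal.{0}) : Prop :=
  ∀ (M N : Type) [L.Structure M] [L.Structure N], #M ≤ lam →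
    ((#N = lam ∧ ∃ K : Set (Set (N × N)), IsLiberal L K lam) ∨
      (Countable (Σ n, L.Functions n) ∧ ∃ X : Set N, #X = lam ∧
        (IsIndiscGen L X ∨ IsFreeOn L X))) →
    (Nonempty (Strategy L M N) ↔ BFEquiv L M N)

theorem agree (L : FirstOrder.Language.{0, 0}) (lam : Cardinal.{0}) (h0 : ℵ₀ ≤ lam)
    (h1 : lam ^ ℵ₀ = lam) : Agree L lam := by
  rintro M N _ _ hM (⟨hN, K, hK⟩ | ⟨hL, X, hX, hgen | hfree⟩)
  · exact agree_of_liberal L lam h0 h1 M N hM hN K hK
  · exact agree_of_indiscGen L lam h0 h1 M N hM X hX hgen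
  · exact agree_of_indiscGen L lam h0 h1 M N hM X hX hfree.indiscGen

end Helper71.BF
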