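import Pool.Agent.Helper71.BF.Crit

/-!
# Existence of closed positions, and the criterion
-/

open Set Cardinal FirstOrder FirstOrder.Language

namespace Helper71.BF

variable {L : FirstOrder.Language.{0, 0}} {M N : Type} [L.Structure M] [L.Structure N]
variable {W : Set (Set (M × N))} {τ : (ℕ → Set (M × N)) → ℕ → Set (M × N)}
  {code : Set (M × N) → M}

/-- the elements of `W` whose code is in the domain of `p` -/
def Hl (W : Set (Set (M × N))) (code : Set (M × N) → M) (p : Set (M × N)) :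
    Set (Set (M × N)) := {w | w ∈ W ∧ code w ∈ Prod.fst '' p}

theorem Hl_countable (hcode : InjOn code W) {p : Set (M × N)} (hp : p.Countable) :
    (Hl W code p).Countable :=
  Set.countable_of_injective_of_countable_image (hcode.mono fun _ hw => hw.1)
    ((hp.image Prod.fst).mono (by
      rintro _ ⟨w, hw, rfl⟩
      exact hw.2))

theorem legal_DR {p : Set (M × N)} (h : p.Countable) : Legal (DR p) :=
  ⟨h.image _, h.image _⟩

/-- one step of the construction -/
theorem step (hW : IsBackForth L W)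
    (hloc : ∀ w w' n, (∀ m ≤ n, w m = w' m) → τ w n = τ w' n)
    (hans : ∀ w n, (∀ m ≤ n, w m ∈ W) → (∀ m < n, τ w m ⊆ w (m + 1)) →
      τ w n ∈ W ∧ w n ⊆ τ w n)
    (hcode : InjOn code W) (p : W) (l : List (Set (M × N))) :
    ∃ q : W, (p.1 ⊆ q.1 ∧ code p.1 ∈ Prod.fst '' q.1 ∧
      ∀ g ∈ W, code g ∈ Prod.fst '' p.1 → Covers q.1 (DR g)) ∧
      (Play τ {g | g ∈ W ∧ g ⊆ p.1} (fun m => l.getD m ∅) l.length →
        τ (Function.update (fun m => l.getD m ∅) l.length p.1) l.length ∈ W ∧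
        τ (Function.update (fun m => l.getD m ∅) l.length p.1) l.length ⊆ q.1 ∧
        code (τ (Function.update (fun m => l.getD m ∅) l.length p.1) l.length) ∈
          Prod.fst '' q.1) := by
  classical
  set w : ℕ → Set (M × N) := fun m => l.getD m ∅ with hw
  set n := l.length
  set v := τ (Function.update w n p.1) n with hv
  have hlegal : Legal ((⋃ g ∈ Hl W code p.1, (DR g).1) ∪ {code p.1, code v},
      ⋃ g ∈ Hl W code p.1, (DR g).2) := by
    have h1 := Hl_countable hcode (hW.pos _ p.2).countable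
    constructor
    · exact (h1.biUnion fun g hg => ((hW.pos g hg.1).countable.image _)).union
        ((countable_singleton _).insert _)
    · exact h1.biUnion fun g hg => ((hW.pos g hg.1).countable.image _)
  have hcov : ∀ q : Set (M × N), Covers q ((⋃ g ∈ Hl W code p.1, (DR g).1) ∪ {code p.1, code v},
      ⋃ g ∈ Hl W code p.1, (DR g).2) → code p.1 ∈ Prod.fst '' q ∧ code v ∈ Prod.fst '' q ∧
      ∀ g ∈ W, code g ∈ Prod.fst '' p.1 → Covers q (DR g) := by
    intro q hq
    refine ⟨hq.1 (Or.inr (Or.inl rfl)), hq.1 (Or.inr (Or.inr rfl)), fun g hg hg2 => ⟨?_, ?_⟩⟩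
    · exact (subset_biUnion_of_mem (u := fun g => (DR g).1)
        (show g ∈ Hl W code p.1 from ⟨hg, hg2⟩)).trans (subset_union_left.trans hq.1)
    · exact (subset_biUnion_of_mem (u := fun g => (DR g).2)
        (show g ∈ Hl W code p.1 from ⟨hg, hg2⟩)).trans hq.2
  by_cases hplay : Play τ {g | g ∈ W ∧ g ⊆ p.1} w n
  · have h1 : v ∈ W ∧ Function.update w n p.1 n ⊆ v := by
      refine hans _ n ?_ ?_
      · intro m hm
        rcases eq_or_lt_of_le hm with rfl | hm'
        · rw [Function.update_self]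
          exact p.2
        · rw [Function.update_of_ne hm'.ne]
          exact (hplay.1 m hm').1.1
      · intro m hm
        have h2 : τ (Function.update w n p.1) m = τ w m := hloc _ _ _ fun k hk => by
          rw [Function.update_of_ne (by omega)]
        rw [h2]
        rcases Nat.lt_or_ge (m + 1) n with h3 | h3
        · rw [Function.update_of_ne h3.ne]
          exact hplay.2 m h3
        · have h4 : m + 1 = n := by omega
          rw [h4, Function.update_self]
          exact (hplay.1 m hm).2.2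
    rw [Function.update_self] at h1
    obtain ⟨q, hq, hvq, hc⟩ := hW.ext v h1.1 _ hlegal
    obtain ⟨c1, c2, c3⟩ := hcov q hc
    exact ⟨⟨q, hq⟩, ⟨h1.2.trans hvq, c1, c3⟩, fun _ => ⟨h1.1, hvq, c2⟩⟩
  · obtain ⟨q, hq, hpq, hc⟩ := hW.ext p.1 p.2 _ hlegal
    obtain ⟨c1, -, c3⟩ := hcov q hc
    exact ⟨⟨q, hq⟩, ⟨hpq, c1, c3⟩, fun h => absurd h hplay⟩

/-- above every element of `W` there is a closed position -/
theorem exists_gen (hW : IsBackForth L W)
    (hloc : ∀ w w' n, (∀ m ≤ n, w m = w' m) → τ w n = τ w' n)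
    (hans : ∀ w n, (∀ m ≤ n, w m ∈ W) → (∀ m < n, τ w m ⊆ w (m + 1)) →
      τ w n ∈ W ∧ w n ⊆ τ w n)
    (hcode : InjOn code W) (p₀ : Set (M × N)) (hp₀ : p₀ ∈ W) :
    ∃ y, p₀ ⊆ y ∧ Gen (L := L) W τ code y := by
  classical
  obtain ⟨p, hp0, hle, hreq⟩ := exists_seq
    (fun p q : W => p.1 ⊆ q.1 ∧ code p.1 ∈ Prod.fst '' q.1 ∧
      ∀ g ∈ W, code g ∈ Prod.fst '' p.1 → Covers q.1 (DR g))
    (fun (p : W) (l : List (Set (M × N))) (q : W) =>
      Play τ {g | g ∈ W ∧ g ⊆ p.1} (fun m => l.getD m ∅) l.length →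
        τ (Function.update (fun m => l.getD m ∅) l.length p.1) l.length ∈ W ∧
        τ (Function.update (fun m => l.getD m ∅) l.length p.1) l.length ⊆ q.1 ∧
        code (τ (Function.update (fun m => l.getD m ∅) l.length p.1) l.length) ∈
          Prod.fst '' q.1)
    (fun p => {l | ∀ g ∈ l, g ∈ Hl W code p.1})
    (fun p => by
      have h1 := Hl_countable hcode (hW.pos _ p.2).countable
      have := h1.to_subtype
      refine (countable_range fun l : List (Hl W code p.1) => l.map Subtype.val).mono ?_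
      intro l hl
      exact ⟨l.attach.map fun g => ⟨g.1, hl g.1 g.2⟩, by simp [List.map_map, Function.comp_def]⟩)
    (step hW hloc hans hcode) (fun p => by
      obtain ⟨q, hq, -⟩ := step hW hloc hans hcode p []
      exact ⟨q, hq⟩) ⟨p₀, hp₀⟩
  have hmono : ∀ n m, n ≤ m → (p n).1 ⊆ (p m).1 := by
    intro n m hnm
    induction m, hnm using Nat.le_induction with
    | base => exact Subset.rfl
    | succ m hm ih => exact ih.trans (hle m).1
  set y : Set (M × N) := ⋃₀ range fun n => (p n).1 with hy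
  have hsub : ∀ n, (p n).1 ⊆ y := fun n => subset_sUnion_of_mem ⟨n, rfl⟩
  have hpos : IsPos L y := by
    refine isPos_sUnion ⟨_, 0, rfl⟩ ?_ (countable_range _) ?_
    · rintro _ ⟨n, rfl⟩ _ ⟨m, rfl⟩ -
      rcases le_total n m with h | h
      · exact Or.inl (hmono n m h)
      · exact Or.inr (hmono m n h)
    · rintro _ ⟨n, rfl⟩
      exact hW.pos _ (p n).2
  have hin : ∀ g ∈ W, code g ∈ Prod.fst '' y → ∃ n, code g ∈ Prod.fst '' (p n).1 := by
    rintro g - ⟨z, ⟨_, ⟨n, rfl⟩, hz⟩, hzw⟩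
    exact ⟨n, z, hz, hzw⟩
  have hpn : ∀ n, (p n).1 ∈ G W code y := fun n =>
    ⟨(p n).2, image_mono (hsub (n + 1)) (hle n).2.1, hsub n⟩
  have hG : ∀ g ∈ G W code y, ∃ n, g ⊆ (p n).1 ∧ code g ∈ Prod.fst '' (p n).1 := by
    intro g hg
    obtain ⟨n, hn⟩ := hin g hg.1 hg.2.1
    exact ⟨n + 1, sub_of_covers hpos (hsub _) hg.2.2 ((hle n).2.2 g hg.1 hn),
      image_mono (hle n).1 hn⟩
  refine ⟨y, ?_, hpos, ?_, ?_, ⟨_, hpn 0⟩, ?_, ?_⟩
  · have h := hsub 0
    rwa [hp0] at h
  · intro g hg hg2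
    obtain ⟨n, hn⟩ := hin g hg hg2
    exact ((hle n).2.2 g hg hn).mono (hsub _)
  · rintro z ⟨_, ⟨n, rfl⟩, hz⟩
    exact ⟨(p n).1, hpn n, hz⟩
  · intro g hg g' hg'
    obtain ⟨n, hn, -⟩ := hG g hg
    obtain ⟨m, hm, -⟩ := hG g' hg'
    exact ⟨(p (max n m)).1, hpn _, hn.trans (hmono _ _ (le_max_left _ _)),
      hm.trans (hmono _ _ (le_max_right _ _))⟩
  · intro w n hplay g hg
    -- a bound for finitely many elements
    have hbd : ∀ (k : ℕ) (v : ℕ → Set (M × N)), (∀ m < k, v m ∈ G W code y) →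
        ∃ N₀, ∀ m < k, v m ⊆ (p N₀).1 ∧ code (v m) ∈ Prod.fst '' (p N₀).1 := by
      intro k v hv
      induction k with
      | zero => exact ⟨0, fun m hm => absurd hm (Nat.not_lt_zero m)⟩
      | succ k ih =>
        obtain ⟨a, ha⟩ := ih fun m hm => hv m (hm.trans (Nat.lt_succ_self k))
        obtain ⟨b, hb1, hb2⟩ := hG _ (hv k (Nat.lt_succ_self k))
        refine ⟨max a b, fun m hm => ?_⟩
        rcases Nat.lt_succ_iff_lt_or_eq.1 hm with h4 | rfl
        · exact ⟨(ha m h4).1.trans (hmono _ _ (le_max_left _ _)),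
            image_mono (hmono _ _ (le_max_left _ _)) (ha m h4).2⟩
        · exact ⟨hb1.trans (hmono _ _ (le_max_right _ _)),
            image_mono (hmono _ _ (le_max_right _ _)) hb2⟩
    obtain ⟨a, ha⟩ := hbd n w fun m hm => (hplay.1 m hm).1
    obtain ⟨b, hb⟩ := hbd n (fun m => τ w m) fun m hm => (hplay.1 m hm).2
    obtain ⟨c, hc, -⟩ := hG g hg
    let l : List (Set (M × N)) := List.ofFn fun i : Fin n => w i
    have hlen : l.length = n := List.length_ofFn
    have hl : ∀ m < n, l.getD m ∅ = w m := by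
      intro m hm
      have h1 : m < l.length := by omega
      rw [List.getD_eq_getElem _ _ h1]
      simp [l]
    have hlreq : l ∈ {l : List (Set (M × N)) | ∀ g ∈ l, g ∈ Hl W code (p a).1} := by
      intro g' hg'
      obtain ⟨i, rfl⟩ := (List.mem_ofFn' _ _).1 hg'
      exact ⟨(hplay.1 i i.2).1.1, (ha i i.2).2⟩
    obtain ⟨k, hk, -, hH⟩ := hreq a l hlreq (max a (max b c))
    have hka : a ≤ k := (le_max_left _ _).trans hk
    have hkb : b ≤ k := ((le_max_left _ _).trans (le_max_right _ _)).trans hk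
    have hkc : c ≤ k := ((le_max_right _ _).trans (le_max_right _ _)).trans hk
    have hplay' : Play τ {g | g ∈ W ∧ g ⊆ (p k).1} (fun m => l.getD m ∅) l.length := by
      rw [hlen]
      refine Play.congr hloc (w := w) (fun m hm => (hl m hm).symm) ⟨fun m hm => ?_, hplay.2⟩
      exact ⟨⟨(hplay.1 m hm).1.1, (ha m hm).1.trans (hmono _ _ hka)⟩,
        ⟨(hplay.1 m hm).2.1, (hb m hm).1.trans (hmono _ _ hkb)⟩⟩
    obtain ⟨h1, h2, h3⟩ := hH hplay'
    have heq : τ (Function.update (fun m => l.getD m ∅) l.length (p k).1) l.length =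
        τ (Function.update w n (p k).1) n := by
      rw [hlen]
      refine hloc _ _ _ fun m hm => ?_
      rcases eq_or_lt_of_le hm with rfl | hm'
      · rw [Function.update_self, Function.update_self]
      · rw [Function.update_of_ne hm'.ne, Function.update_of_ne hm'.ne]
        exact hl m hm'
    rw [heq] at h1 h2 h3
    refine ⟨(p k).1, hpn k, hc.trans (hmono _ _ hkc), ?_, h1, image_mono (hsub _) h3,
      h2.trans (hsub _)⟩
    intro m hm
    exact (hb m (by omega)).1.trans (hmono _ _ hkb)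

/-- the criterion, one direction -/
theorem bfEquiv_of_winsOn (hne : W.Nonempty) (hW : IsBackForth L W) (hwin : WinsOn W)
    (hcode : InjOn code W) : BFEquiv L M N := by
  obtain ⟨τ, hloc, hans, hτ⟩ := hwin
  refine ⟨{y | Gen (L := L) W τ code y}, ⟨fun y hy => hy.pos, ?_⟩, ?_⟩
  · intro y hy c hc
    obtain ⟨u, hu, hyu⟩ := hy.top hloc hτ hcode
    obtain ⟨q, hq, huq, hcq⟩ := hW.ext u hu c hc
    obtain ⟨y', h1, h2⟩ := exists_gen hW hloc hans hcode q hq
    exact ⟨y', h2, (hyu.trans huq).trans h1, hcq.mono h1⟩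
  · intro C hC hcount hch
    rcases C.eq_empty_or_nonempty with rfl | hCne
    · obtain ⟨w, hw⟩ := hne
      obtain ⟨y, -, hy⟩ := exists_gen hW hloc hans hcode w hw
      exact ⟨y, hy, fun p hp => absurd hp (notMem_empty p)⟩
    · exact ⟨⋃₀ C, gen_sUnion hCne hch hcount hC, fun p hp => subset_sUnion_of_mem hp⟩

/-- the criterion, trivial direction -/
theorem winsOn_of_bfEquiv (h : BFEquiv L M N) :
    ∃ W : Set (Set (M × N)), W.Nonempty ∧ IsBackForth L W ∧ WinsOn W := by
  obtain ⟨I, hI, hch⟩ := h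
  obtain ⟨q, hq, -⟩ := hch ∅ (empty_subset _) countable_empty (by simp [IsChain])
  refine ⟨I, ⟨q, hq⟩, hI, fun w n => w n, fun w w' n h => h n le_rfl,
    fun w n h _ => ⟨h n le_rfl, Subset.rfl⟩, fun w h1 h2 => ?_⟩
  have hmono : ∀ n m, n ≤ m → w n ⊆ w m := by
    intro n m hnm
    induction m, hnm using Nat.le_induction with
    | base => exact Subset.rfl
    | succ m hm ih => exact ih.trans (h2 m)
  obtain ⟨u, hu, h3⟩ := hch (range w) (by rintro _ ⟨n, rfl⟩; exact h1 n) (countable_range w) (by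
    rintro _ ⟨n, rfl⟩ _ ⟨m, rfl⟩ -
    rcases le_total n m with h | h
    · exact Or.inl (hmono n m h)
    · exact Or.inr (hmono m n h))
  exact ⟨u, hu, fun n => h3 _ ⟨n, rfl⟩⟩

end Helper71.BF
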