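import Pool.Agent.Helper71.BF.Final

/-!
# Named pieces

If after some stage there are fewer than `lam` pairwise incompatible positions, `lam` regular,
then the components of the bipartite graph of all pairs which occur in the positions after the
stage have cardinality `< lam`.
-/

open Set Cardinal FirstOrder FirstOrder.Language

namespace Helper71.BF

/-- components of a locally small symmetric relation are small -/
theorem component_lt {X : Type} (r : X → X → Prop) (hsymm : ∀ x y, r x y → r y x)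
    (lam : Cardinal.{0}) (hreg : lam.IsRegular) (hlam : ℵ₀ < lam)
    (hr : ∀ x, #{y | r x y} < lam) (x : X) : #{y | Relation.EqvGen r x y} < lam := by
  let S : ℕ → Set X := fun n => Nat.rec {x} (fun _ s => s ∪ ⋃ y ∈ s, {z | r y z}) n
  have hS0 : S 0 = {x} := rfl
  have hSs : ∀ n, S (n + 1) = S n ∪ ⋃ y ∈ S n, {z | r y z} := fun _ => rfl
  have hS : ∀ n, #(↥(S n)) < lam := by
    intro n
    induction n with
    | zero =>
      rw [hS0, Cardinal.mk_singleton]
      exact Cardinal.one_lt_aleph0.trans hlam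
    | succ n ih =>
      rw [hSs]
      refine (Cardinal.mk_union_le _ _).trans_lt (Cardinal.add_lt_of_lt hlam.le ih ?_)
      exact (Cardinal.card_biUnion_lt_iff_forall_of_isRegular hreg ih).2 fun y _ => hr y
  have hT : #(↥(⋃ n, S n)) < lam := by
    refine (Cardinal.card_iUnion_lt_iff_forall_of_isRegular hreg ?_).2 hS
    rw [Cardinal.mk_nat]
    exact hlam
  have hcl : ∀ a b, r a b → a ∈ ⋃ n, S n → b ∈ ⋃ n, S n := by
    intro a b hab ha
    obtain ⟨n, hn⟩ := mem_iUnion.1 ha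
    refine mem_iUnion.2 ⟨n + 1, ?_⟩
    rw [hSs]
    exact Or.inr (mem_biUnion hn hab)
  have hE : ∀ a b, Relation.EqvGen r a b → (a ∈ (⋃ n, S n) ↔ b ∈ ⋃ n, S n) := by
    intro a b h
    induction h with
    | rel a b h => exact ⟨hcl a b h, hcl b a (hsymm a b h)⟩
    | refl a => exact Iff.rfl
    | symm a b _ ih => exact ih.symm
    | trans a b c _ _ ih1 ih2 => exact ih1.trans ih2
  refine (Cardinal.mk_le_mk_of_subset fun y hy => ?_).trans_lt hT
  exact (hE x y hy).1 (mem_iUnion.2 ⟨0, rfl⟩)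

/-- the bipartite graph of a relation -/
def Adj {M N : Type} (R : Set (M × N)) : M ⊕ N → M ⊕ N → Prop
  | .inl a, .inr b => (a, b) ∈ R
  | .inr b, .inl a => (a, b) ∈ R
  | _, _ => False

theorem Adj.symm {M N : Type} (R : Set (M × N)) : ∀ x y, Adj R x y → Adj R y x
  | .inl _, .inr _, h => h
  | .inr _, .inl _, h => h
  | .inl _, .inl _, h => h
  | .inr _, .inr _, h => h

/-- a relation with small rows and columns lives on small named pieces -/
theorem exists_pieces {M N : Type} (R : Set (M × N)) (lam : Cardinal.{0}) (hreg : lam.IsRegular)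
    (hlam : ℵ₀ < lam) (h1 : ∀ a, #{b | (a, b) ∈ R} < lam) (h2 : ∀ b, #{a | (a, b) ∈ R} < lam) :
    ∃ (I : Type) (π : M → I) (π' : N → I), (∀ i, #{a | π a = i} < lam) ∧
      (∀ i, #{b | π' b = i} < lam) ∧ ∀ z ∈ R, π z.1 = π' z.2 := by
  have hr : ∀ x, #{y | Adj R x y} < lam := by
    rintro (a | b)
    · have h : {y | Adj R (Sum.inl a) y} ⊆ Sum.inr '' {b | (a, b) ∈ R} := by
        rintro (a' | b) h
        · exact absurd h (by simp [Adj])
        · exact ⟨b, h, rfl⟩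
      exact ((Cardinal.mk_le_mk_of_subset h).trans Cardinal.mk_image_le).trans_lt (h1 a)
    · have h : {y | Adj R (Sum.inr b) y} ⊆ Sum.inl '' {a | (a, b) ∈ R} := by
        rintro (a | b') h
        · exact ⟨a, h, rfl⟩
        · exact absurd h (by simp [Adj])
      exact ((Cardinal.mk_le_mk_of_subset h).trans Cardinal.mk_image_le).trans_lt (h2 b)
  have hc := component_lt (Adj R) (Adj.symm R) lam hreg hlam hr
  let s : Setoid (M ⊕ N) := Relation.EqvGen.setoid (Adj R)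
  refine ⟨Quotient s, fun a => Quotient.mk s (Sum.inl a), fun b => Quotient.mk s (Sum.inr b),
    ?_, ?_, ?_⟩
  · intro i
    induction i using Quotient.inductionOn with
    | h x =>
      refine (Cardinal.mk_le_of_injective (β := {y | Relation.EqvGen (Adj R) x y})
        (f := fun a => ⟨Sum.inl a.1, ?_⟩) ?_).trans_lt (hc x)
      · exact (Quotient.exact (s := s) a.2).symm
      · intro a a' h
        exact Subtype.ext (Sum.inl.inj (congrArg Subtype.val h))
  · intro i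
    induction i using Quotient.inductionOn with
    | h x =>
      refine (Cardinal.mk_le_of_injective (β := {y | Relation.EqvGen (Adj R) x y})
        (f := fun a => ⟨Sum.inr a.1, ?_⟩) ?_).trans_lt (hc x)
      · exact (Quotient.exact (s := s) a.2).symm
      · intro a a' h
        exact Subtype.ext (Sum.inr.inj (congrArg Subtype.val h))
  · rintro ⟨a, b⟩ hz
    exact Quotient.sound (s := s) (Relation.EqvGen.rel (Sum.inl a) (Sum.inr b) hz)

variable (L : FirstOrder.Language.{0, 0}) {M N : Type} [L.Structure M] [L.Structure N]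

/-- `f` is the graph of an isomorphism between a substructure of `M` and a substructure of `N`,
of any cardinality -/
structure IsIso (f : Set (M × N)) : Prop where
  fst_inj : ∀ a b b', (a, b) ∈ f → (a, b') ∈ f → b = b'
  snd_inj : ∀ a a' b, (a, b) ∈ f → (a', b) ∈ f → a = a'
  map_fun : ∀ (n : ℕ) (F : L.Functions n) (x : Fin n → M) (y : Fin n → N),
    (∀ i, (x i, y i) ∈ f) → (Structure.funMap F x, Structure.funMap F y) ∈ f
  map_rel : ∀ (n : ℕ) (r : L.Relations n) (x : Fin n → M) (y : Fin n → N),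
    (∀ i, (x i, y i) ∈ f) → (Structure.RelMap r x ↔ Structure.RelMap r y)

variable {L}

/-- unions of at most `ℵ₁` elements of named pieces are isomorphic, over the given position -/
theorem exists_iso (σ : Strategy L M N) (c : K1 → Set M × Set N) (α : K1)
    (hc : ∀ ξ, Legal (c ξ)) {I : Type} (π : M → I) (π' : N → I)
    (hπ : ∀ p ∈ σ.After c α, ∀ z ∈ p, π z.1 = π' z.2) (J : Set I)
    (h1 : #(π ⁻¹' J) ≤ ℵ_ 1) (h2 : #(π' ⁻¹' J) ≤ ℵ_ 1)
    (hcl : ∀ (n : ℕ) (F : L.Functions n) (x : Fin n → M), (∀ i, π (x i) ∈ J) →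
      π (Structure.funMap F x) ∈ J) :
    ∃ f : Set (M × N), IsIso L f ∧ Prod.fst '' f = π ⁻¹' J ∧ Prod.snd '' f = π' ⁻¹' J ∧
      (∀ z ∈ f, π z.1 = π' z.2) ∧ ∀ z ∈ σ.ans c α, π z.1 ∈ J → z ∈ f := by
  classical
  have hK : #K1 = ℵ_ 1 := Cardinal.mk_ord_toType _
  rw [← hK] at h1 h2
  obtain ⟨h⟩ := Cardinal.le_def _ _ |>.1 h1
  obtain ⟨h'⟩ := Cardinal.le_def _ _ |>.1 h2
  let c' : K1 → Set M × Set N := fun ξ => if ξ ≤ α then c ξ else
    (Subtype.val '' (h ⁻¹' Iic ξ), Subtype.val '' (h' ⁻¹' Iic ξ))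
  have hc1 : ∀ ξ, ξ ≤ α → c' ξ = c ξ := fun ξ hξ => if_pos hξ
  have hc2 : ∀ ξ, α < ξ → c' ξ =
      (Subtype.val '' (h ⁻¹' Iic ξ), Subtype.val '' (h' ⁻¹' Iic ξ)) :=
    fun ξ hξ => if_neg (not_le.2 hξ)
  have hleg : ∀ ξ, Legal (c' ξ) := by
    intro ξ
    rcases le_or_gt ξ α with hξ | hξ
    · rw [hc1 ξ hξ]
      exact hc ξ
    · rw [hc2 ξ hξ]
      exact ⟨((K1.iic ξ).preimage h.injective).image _, ((K1.iic ξ).preimage h'.injective).image _⟩
  have haft : ∀ β, α ≤ β → σ.ans c' β ∈ σ.After c α := fun β hβ =>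
    ⟨c', hleg, fun ξ hξ => (hc1 ξ hξ).symm, β, hβ, rfl⟩
  have hfin : ∀ (n : ℕ) (z : Fin n → M × N), (∀ i, ∃ β, α ≤ β ∧ z i ∈ σ.ans c' β) →
      ∃ β, α ≤ β ∧ ∀ i, z i ∈ σ.ans c' β := by
    intro n z hz
    choose β hβ1 hβ2 using hz
    obtain ⟨b, hb⟩ := K1.bdd (insert α (range β)) ((countable_range β).insert α)
    refine ⟨b, (hb α (mem_insert _ _)).le, fun i => ?_⟩
    exact σ.mono c' hleg _ _ (hb (β i) (mem_insert_of_mem _ ⟨i, rfl⟩)).le (hβ2 i)
  refine ⟨{z | π z.1 ∈ J ∧ ∃ β, α ≤ β ∧ z ∈ σ.ans c' β}, ⟨?_, ?_, ?_, ?_⟩, ?_, ?_, ?_, ?_⟩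
  · rintro a b b' ⟨-, hb⟩ ⟨-, hb'⟩
    obtain ⟨β, hβ, hz⟩ := hfin 2 ![(a, b), (a, b')] (by
      intro i
      fin_cases i
      · exact hb
      · exact hb')
    exact (σ.pos c' hleg β).fst_inj a b b' (hz 0) (hz 1)
  · rintro a a' b ⟨-, hb⟩ ⟨-, hb'⟩
    obtain ⟨β, hβ, hz⟩ := hfin 2 ![(a, b), (a', b)] (by
      intro i
      fin_cases i
      · exact hb
      · exact hb')
    exact (σ.pos c' hleg β).snd_inj a a' b (hz 0) (hz 1)
  · intro n F x y hxy
    obtain ⟨β, hβ, hz⟩ := hfin n (fun i => (x i, y i)) fun i => (hxy i).2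
    exact ⟨hcl n F x fun i => (hxy i).1, β, hβ, (σ.pos c' hleg β).map_fun n F x y hz⟩
  · intro n r x y hxy
    obtain ⟨β, hβ, hz⟩ := hfin n (fun i => (x i, y i)) fun i => (hxy i).2
    exact (σ.pos c' hleg β).map_rel n r x y hz
  · ext a
    constructor
    · rintro ⟨z, hz, rfl⟩
      exact hz.1
    · intro ha
      obtain ⟨b, hb⟩ := K1.bdd {α, h ⟨a, ha⟩} ((countable_singleton _).insert _)
      have hαb : α < b := hb α (mem_insert _ _)
      have h3 := (σ.covers c' hleg b).1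
      rw [hc2 b hαb] at h3
      obtain ⟨z, hz, rfl⟩ := h3 ⟨⟨a, ha⟩, (hb (h ⟨a, ha⟩) (mem_insert_of_mem _ rfl)).le, rfl⟩
      exact ⟨z, ⟨ha, b, hαb.le, hz⟩, rfl⟩
  · ext a
    constructor
    · rintro ⟨z, hz, rfl⟩
      obtain ⟨hz1, β, hβ, hz2⟩ := hz
      have h4 := hπ _ (haft β hβ) z hz2
      change π' z.2 ∈ J
      rw [← h4]
      exact hz1
    · intro ha
      obtain ⟨b, hb⟩ := K1.bdd {α, h' ⟨a, ha⟩} ((countable_singleton _).insert _)
      have hαb : α < b := hb α (mem_insert _ _)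
      have h3 := (σ.covers c' hleg b).2
      rw [hc2 b hαb] at h3
      obtain ⟨z, hz, rfl⟩ := h3 ⟨⟨a, ha⟩, (hb (h' ⟨a, ha⟩) (mem_insert_of_mem _ rfl)).le, rfl⟩
      have h4 := hπ _ (haft b hαb.le) z hz
      refine ⟨z, ⟨?_, b, hαb.le, hz⟩, rfl⟩
      rw [h4]
      exact ha
  · rintro z ⟨-, β, hβ, hz⟩
    exact hπ _ (haft β hβ) z hz
  · intro z hz hzJ
    refine ⟨hzJ, α, le_rfl, ?_⟩
    rwa [σ.local' c' c α hc1]

/-- the second alternative of the dichotomy -/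
structure SmallPieces (σ : Strategy L M N) (c : K1 → Set M × Set N) (α : K1)
    (lam : Cardinal.{0}) (I : Type) (π : M → I) (π' : N → I) : Prop where
  small : ∀ i, #{a | π a = i} < lam
  small' : ∀ i, #{b | π' b = i} < lam
  respect : ∀ p ∈ σ.After c α, ∀ z ∈ p, π z.1 = π' z.2
  iso : ∀ J : Set I, #(π ⁻¹' J) ≤ ℵ_ 1 → #(π' ⁻¹' J) ≤ ℵ_ 1 →
    (∀ (n : ℕ) (F : L.Functions n) (x : Fin n → M), (∀ i, π (x i) ∈ J) →
      π (Structure.funMap F x) ∈ J) →
    ∀ p ∈ σ.After c α, ∃ f : Set (M × N), IsIso L f ∧ Prod.fst '' f = π ⁻¹' J ∧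
      Prod.snd '' f = π' ⁻¹' J ∧ (∀ z ∈ f, π z.1 = π' z.2) ∧ ∀ z ∈ p, π z.1 ∈ J → z ∈ f

theorem exists_smallPieces (lam : Cardinal.{0}) (hreg : lam.IsRegular) (hlam : ℵ₀ < lam)
    (σ : Strategy L M N) (c : K1 → Set M × Set N) (α : K1)
    (hcc : σ.ChainCondition c α lam) :
    ∃ (I : Type) (π : M → I) (π' : N → I), SmallPieces σ c α lam I π π' := by
  obtain ⟨I, π, π', h1, h2, h3⟩ := exists_pieces {z | ∃ p ∈ σ.After c α, z ∈ p} lam hreg hlam
    (images_lt σ c α lam hcc) (preimages_lt σ c α lam hcc)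
  have h4 : ∀ p ∈ σ.After c α, ∀ z ∈ p, π z.1 = π' z.2 := fun p hp z hz => h3 z ⟨p, hp, hz⟩
  refine ⟨I, π, π', h1, h2, h4, ?_⟩
  rintro J hJ1 hJ2 hcl p ⟨c', hc', hag, β, hβ, rfl⟩
  refine exists_iso σ c' β hc' π π' ?_ J hJ1 hJ2 hcl
  rintro p ⟨c'', hc'', hag', β', hβ', rfl⟩
  exact h4 _ ⟨c'', hc'', fun ξ hξ => (hag ξ hξ).trans (hag' ξ (hξ.trans hβ)), β', hβ.trans hβ',
    rfl⟩

/-- the dichotomy for structures `M`, `N` with `#M = lam` and `#N ≤ lam` -/
def Dichotomy (L : FirstOrder.Language.{0, 0}) (lam : Cardinal.{0}) : Prop :=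
  ∀ (M N : Type) [L.Structure M] [L.Structure N], #M = lam → #N ≤ lam →
    ∀ σ : Strategy L M N, BFEquiv L M N ∨ ∃ c α, (∀ ξ, Legal (c ξ)) ∧
      σ.ChainCondition c α lam ∧
      (lam.IsRegular → ∃ (I : Type) (π : M → I) (π' : N → I), SmallPieces σ c α lam I π π')

theorem dichotomy' (L : FirstOrder.Language.{0, 0}) (lam : Cardinal.{0}) (h0 : ℵ₀ ≤ lam)
    (h1 : lam ^ ℵ₀ = lam) : Dichotomy L lam := by
  intro M N _ _ hM hN σ
  rcases dichotomy lam h0 h1 hM hN σ with h | ⟨c, α, hc, hcc⟩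
  · exact Or.inl h
  · refine Or.inr ⟨c, α, hc, hcc, fun hreg => exists_smallPieces lam hreg ?_ σ c α hcc⟩
    calc ℵ₀ < 2 ^ ℵ₀ := Cardinal.cantor _
      _ ≤ lam ^ ℵ₀ := Cardinal.power_le_power_right ((Cardinal.natCast_lt_aleph0 (n := 2)).le.trans h0)
      _ = lam := h1

theorem isRegular_aleph_two : (ℵ_ 2 : Cardinal.{0}).IsRegular := by
  have h12 : (ℵ_ 2 : Cardinal.{0}) = Order.succ (ℵ_ 1) := by
    rw [Cardinal.succ_aleph]
    congr 1
    norm_num
  rw [h12]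
  exact Cardinal.isRegular_succ (Cardinal.aleph0_le_aleph 1)

end Helper71.BF
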