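import Pool.Agent.Helper71.BF.Pieces

/-!
# Systems of stages

The construction of `Dich` for arbitrary preordered systems of stages in which countable
increasing sequences have bounds; liberal structures.
-/

open Set Cardinal FirstOrder FirstOrder.Language

namespace Helper71.BF

variable (L : FirstOrder.Language.{0, 0}) {M N : Type} [L.Structure M] [L.Structure N]

/-- a system of stages with positions -/
structure IsSystem (P : Type) (le : P → P → Prop) (pst : P → Set (M × N)) : Prop where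
  refl : ∀ s, le s s
  trans : ∀ s t r, le s t → le t r → le s r
  pos : ∀ s, IsPos L (pst s)
  mono : ∀ s t, le s t → pst s ⊆ pst t
  bound : ∀ (α : K1) (g : (β : K1) → β < α → P),
    (∀ β hβ β' hβ', β ≤ β' → le (g β hβ) (g β' hβ')) → ∃ t, ∀ β hβ, le (g β hβ) t
  cov : ∀ s c, Legal c → ∃ t, le s t ∧ Covers (pst t) c

variable {L}

section Tree

variable {P Λ : Type} (le : P → P → Prop) (s0 : P) (step : P → Λ → P)

/-- a bound, if there is one -/
noncomputable def bd (α : K1) (g : (β : K1) → β < α → P) : P := by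
  classical
  exact if h : ∃ t, ∀ β hβ, le (g β hβ) t then h.choose else s0

/-- the stage of the node `u` restricted to `α` -/
noncomputable def anode (u : K1 → Λ) : K1 → P :=
  (wellFounded_lt (α := K1)).fix fun α ih => bd le s0 α fun β hβ => step (ih β hβ) (u β)

theorem anode_eq (u : K1 → Λ) (α : K1) :
    anode le s0 step u α = bd le s0 α fun β _ => step (anode le s0 step u β) (u β) :=
  WellFounded.fix_eq _ _ _

theorem anode_congr {u v : K1 → Λ} (α : K1) (h : ∀ β < α, u β = v β) :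
    anode le s0 step u α = anode le s0 step v α := by
  induction α using WellFoundedLT.induction with
  | ind α ih =>
    rw [anode_eq, anode_eq]
    congr 1
    funext β hβ
    rw [ih β hβ fun γ hγ => h γ (hγ.trans hβ), h β hβ]

theorem anode_spec {pst : P → Set (M × N)} (hP : IsSystem L P le pst)
    (hstep : ∀ s i, le s (step s i)) (u : K1 → Λ) (α : K1) :
    ∀ β < α, le (step (anode le s0 step u β) (u β)) (anode le s0 step u α) := by
  induction α using WellFoundedLT.induction with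
  | ind α ih =>
    have hex : ∃ t, ∀ β (_ : β < α), le (step (anode le s0 step u β) (u β)) t := by
      refine hP.bound α (fun β _ => step (anode le s0 step u β) (u β)) ?_
      intro γ hγ γ' hγ' hle
      rcases eq_or_lt_of_le hle with rfl | hlt
      · exact hP.refl _
      · exact hP.trans _ _ _ (ih γ' hγ' γ hlt) (hstep _ _)
    intro β hβ
    rw [anode_eq le s0 step u α]
    unfold bd
    rw [dif_pos hex]
    exact hex.choose_spec β hβ

theorem anode_mono {pst : P → Set (M × N)} (hP : IsSystem L P le pst)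
    (hstep : ∀ s i, le s (step s i)) (u : K1 → Λ) {α β : K1} (h : β ≤ α) :
    le (anode le s0 step u β) (anode le s0 step u α) := by
  rcases eq_or_lt_of_le h with rfl | hlt
  · exact hP.refl _
  · exact hP.trans _ _ _ (hstep _ _) (anode_spec le s0 step hP hstep u α β hlt)

end Tree

/-- the main construction, for systems -/
theorem bfEquiv_of_system {P Λ : Type} {le : P → P → Prop} {pst : P → Set (M × N)}
    (hP : IsSystem L P le pst) (hne : Nonempty P)
    (e : Λ → Set M × Set N) (he : ∀ i, Legal (e i)) (hsurj : ∀ c, Legal c → ∃ i, e i = c)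
    (hinc : ∀ s, ∃ f : Λ → P, (∀ i, le s (f i)) ∧
      ∀ i j, i ≠ j → ∀ t, pst (f i) ⊆ pst t → ¬ pst (f j) ⊆ pst t) :
    BFEquiv L M N := by
  classical
  choose f hf1 hf2 using hinc
  obtain ⟨i0, -⟩ := hsurj (∅, ∅) ⟨countable_empty, countable_empty⟩
  obtain ⟨s0⟩ := hne
  have hcv : ∀ s i, ∃ t, le s t ∧ Covers (pst t) (e i) := fun s i => hP.cov s (e i) (he i)
  choose ex hex1 hex2 using hcv
  let step : P → Λ → P := fun s i => ex (f s i) i
  have hstep' : ∀ s i, le (f s i) (step s i) := fun s i => hex1 _ _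
  have hstep : ∀ s i, le s (step s i) := fun s i => hP.trans _ _ _ (hf1 s i) (hstep' s i)
  have hN := fun u => anode_spec le s0 step hP hstep u
  -- comparability
  have hcomp : ∀ u α v β, pst (anode le s0 step u α) ⊆ pst (anode le s0 step v β) →
      ∀ γ, γ < α → γ < β → u γ = v γ := by
    intro u α v β hsub
    by_contra hcon
    push Not at hcon
    obtain ⟨δ, ⟨h1, h2, h3⟩, hmin⟩ := (wellFounded_lt (α := K1)).has_min
      {γ | γ < α ∧ γ < β ∧ u γ ≠ v γ} (by
        obtain ⟨γ, h1, h2, h3⟩ := hcon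
        exact ⟨γ, h1, h2, h3⟩)
    have huv : ∀ γ < δ, u γ = v γ := by
      intro γ hγ
      by_contra hne
      exact hmin γ ⟨hγ.trans h1, hγ.trans h2, hne⟩ hγ
    have hs : anode le s0 step u δ = anode le s0 step v δ := anode_congr le s0 step δ huv
    have e1 := hN u α δ h1
    have e2 := hN v β δ h2
    rw [hs] at e1
    refine hf2 (anode le s0 step v δ) (u δ) (v δ) h3 (anode le s0 step v β) ?_ ?_
    · exact (hP.mono _ _ (hP.trans _ _ _ (hstep' _ _) e1)).trans hsub
    · exact hP.mono _ _ (hP.trans _ _ _ (hstep' _ _) e2)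
  refine ⟨{p | ∃ u α, p = pst (anode le s0 step u α)}, ⟨?_, ?_⟩, ?_⟩
  · rintro p ⟨u, α, rfl⟩
    exact hP.pos _
  · rintro p ⟨u, α, rfl⟩ c hc
    obtain ⟨i, rfl⟩ := hsurj c hc
    obtain ⟨α', hα'⟩ := K1.exists_gt α
    let u' := Function.update u α i
    have h1 : anode le s0 step u α = anode le s0 step u' α :=
      anode_congr le s0 step α fun β hβ => (Function.update_of_ne hβ.ne _ _).symm
    have h2 := hN u' α' α hα'
    have h3 : u' α = i := Function.update_self _ _ _
    rw [h3] at h2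
    refine ⟨_, ⟨u', α', rfl⟩, ?_, ?_⟩
    · rw [h1]
      exact hP.mono _ _ (anode_mono le s0 step hP hstep u' hα'.le)
    · exact (hex2 _ _).mono (hP.mono _ _ h2)
  · intro C hC hcount hchain
    have hch : ∀ p : C, ∃ u α, p.1 = pst (anode le s0 step u α) := fun p => hC p.2
    choose u α hp using hch
    have : Countable C := hcount.to_subtype
    obtain ⟨b, hb⟩ := K1.bdd (range α) (countable_range α)
    let w : K1 → Λ := fun ξ => if h : ∃ p, ξ < α p then u h.choose ξ else i0
    have hw : ∀ p, ∀ ξ < α p, w ξ = u p ξ := by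
      intro p ξ hξ
      have h : ∃ p, ξ < α p := ⟨p, hξ⟩
      have h1 : w ξ = u h.choose ξ := dif_pos h
      rw [h1]
      have h2 := h.choose_spec
      rcases eq_or_ne h.choose p with h3 | h3
      · rw [h3]
      · rcases hchain h.choose.2 p.2 (fun h4 => h3 (Subtype.ext h4)) with h4 | h4
        · have h5 : h.choose.1 ⊆ p.1 := h4
          rw [hp h.choose, hp p] at h5
          exact hcomp _ _ _ _ h5 ξ h2 hξ
        · have h5 : p.1 ⊆ h.choose.1 := h4
          rw [hp h.choose, hp p] at h5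
          exact (hcomp _ _ _ _ h5 ξ hξ h2).symm
    refine ⟨_, ⟨w, b, rfl⟩, ?_⟩
    intro p hpC
    have h1 := hp ⟨p, hpC⟩
    change p = _ at h1
    rw [h1, ← anode_congr le s0 step (α ⟨p, hpC⟩) (hw ⟨p, hpC⟩)]
    exact hP.mono _ _ (anode_mono le s0 step hP hstep w (hb _ ⟨_, rfl⟩).le)

/-- a stage can be extended so as to cover a given pair of countable sets -/
theorem exists_stage_covers (σ : Strategy L M N) (s : Stg M N) (hs : Leg s)
    (c : Set M × Set N) (hc : Legal c) :
    ∃ t : Stg M N, Leg t ∧ Ext s t ∧ Covers (σ.at t) c := by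
  classical
  obtain ⟨b, hb⟩ := K1.exists_gt s.2
  have hleg : Leg (Function.update s.1 b c, b) := by
    intro ξ
    change Legal (Function.update s.1 b c ξ)
    by_cases h : ξ = b
    · rw [h, Function.update_self]
      exact hc
    · rw [Function.update_of_ne h]
      exact hs ξ
  refine ⟨(Function.update s.1 b c, b), hleg, ⟨hb.le, fun ξ hξ => ?_⟩, ?_⟩
  · exact (Function.update_of_ne (hξ.trans_lt hb).ne _ _).symm
  · have h := σ.covers (Function.update s.1 b c) hleg b
    rwa [Function.update_self] at h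

/-- the known direction: a closed back-and-forth set gives a winning strategy -/
theorem strategy_of_bfEquiv (h : BFEquiv L M N) : Nonempty (Strategy L M N) := by
  classical
  obtain ⟨I, hI, hch⟩ := h
  let nxt : (α : K1) → ((β : K1) → β < α → Set (M × N)) → Set M × Set N → Set (M × N) :=
    fun α prev m => if h : ∃ q ∈ I, (∀ β hβ, prev β hβ ⊆ q) ∧ (Legal m → Covers q m)
      then h.choose else ∅
  let ans : (K1 → Set M × Set N) → K1 → Set (M × N) := fun c =>
    (wellFounded_lt (α := K1)).fix fun α ih => nxt α ih (c α)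
  have hans : ∀ c α, ans c α = nxt α (fun β _ => ans c β) (c α) := fun c α =>
    WellFounded.fix_eq _ _ _
  have hspec : ∀ c α, ans c α ∈ I ∧ (∀ β < α, ans c β ⊆ ans c α) ∧
      (Legal (c α) → Covers (ans c α) (c α)) := by
    intro c α
    induction α using WellFoundedLT.induction with
    | ind α ih =>
      have hex : ∃ q ∈ I, (∀ β (_ : β < α), ans c β ⊆ q) ∧ (Legal (c α) → Covers q (c α)) := by
        have hcount : (⋃ β : Iio α, {ans c β.1}).Countable := by
          have : Countable (Iio α) := ((K1.iic α).mono Iio_subset_Iic_self).to_subtype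
          exact countable_iUnion fun β => countable_singleton _
        obtain ⟨q, hq, hq2⟩ := hch (⋃ β : Iio α, {ans c β.1}) (by
          rintro p hp
          obtain ⟨β, rfl⟩ := mem_iUnion.1 hp
          exact (ih β.1 β.2).1) hcount (by
          rintro p hp p' hp' -
          obtain ⟨β, rfl⟩ := mem_iUnion.1 hp
          obtain ⟨β', rfl⟩ := mem_iUnion.1 hp'
          rcases lt_trichotomy β.1 β'.1 with h | h | h
          · exact Or.inl ((ih β'.1 β'.2).2.1 β.1 h)
          · rw [h]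
            exact Or.inl Subset.rfl
          · exact Or.inr ((ih β.1 β.2).2.1 β'.1 h))
        have hq3 : ∀ β (_ : β < α), ans c β ⊆ q := fun β hβ =>
          hq2 _ (mem_iUnion.2 ⟨⟨β, hβ⟩, rfl⟩)
        by_cases hl : Legal (c α)
        · obtain ⟨q', hq', hqq, hcov⟩ := hI.ext q hq (c α) hl
          exact ⟨q', hq', fun β hβ => (hq3 β hβ).trans hqq, fun _ => hcov⟩
        · exact ⟨q, hq, hq3, fun h => absurd h hl⟩
      have h1 : ans c α = hex.choose := by
        rw [hans c α]
        exact dif_pos hex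
      rw [h1]
      exact ⟨hex.choose_spec.1, hex.choose_spec.2.1, hex.choose_spec.2.2⟩
  refine ⟨⟨ans, ?_, fun c _ α => hI.pos _ (hspec c α).1, fun c hc α => (hspec c α).2.2 (hc α),
    fun c _ α β hαβ => ?_⟩⟩
  · intro c c' α
    induction α using WellFoundedLT.induction with
    | ind α ih =>
      intro h
      rw [hans c α, hans c' α, h α le_rfl]
      congr 1
      funext β hβ
      exact ih β hβ fun ξ hξ => h ξ (hξ.trans hβ.le)
  · rcases eq_or_lt_of_le hαβ with rfl | hlt
    · exact Subset.rfl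
    · exact (hspec c β).2.1 α hlt

/-- the composition of two relations -/
def comp (k : Set (N × N)) (p : Set (M × N)) : Set (M × N) :=
  {z | ∃ b, (z.1, b) ∈ p ∧ (b, z.2) ∈ k}

theorem comp_pos {k : Set (N × N)} {p : Set (M × N)} (hk : IsPos L k) (hp : IsPos L p) :
    IsPos L (comp k p) := by
  refine ⟨?_, ?_, ?_, ?_, ?_⟩
  · rintro a b b' ⟨m, h1, h2⟩ ⟨m', h3, h4⟩
    obtain rfl := hp.fst_inj _ _ _ h1 h3
    exact hk.fst_inj _ _ _ h2 h4
  · rintro a a' b ⟨m, h1, h2⟩ ⟨m', h3, h4⟩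
    obtain rfl := hk.snd_inj _ _ _ h2 h4
    exact hp.snd_inj _ _ _ h1 h3
  · intro n F x y hxy
    choose m h1 h2 using hxy
    exact ⟨_, hp.map_fun n F x m h1, hk.map_fun n F m y h2⟩
  · intro n r x y hxy
    choose m h1 h2 using hxy
    exact (hp.map_rel n r x m h1).trans (hk.map_rel n r m y h2)
  · refine ((hp.countable.prod hk.countable).image fun w => (w.1.1, w.2.2)).mono ?_
    rintro ⟨a, b⟩ ⟨m, h1, h2⟩
    exact ⟨((a, m), (m, b)), ⟨h1, h2⟩, rfl⟩

theorem comp_mono {k k' : Set (N × N)} {p p' : Set (M × N)} (hk : k ⊆ k') (hp : p ⊆ p') :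
    comp k p ⊆ comp k' p' := by
  rintro z ⟨m, h1, h2⟩
  exact ⟨m, hp h1, hk h2⟩

variable (L)

/-- `K` is a nonempty back-and-forth set from `N` to `N` with bounds of countable chains, such
that above each `k ∈ K` some `b` has at least `lam` images -/
structure IsLiberal (K : Set (Set (N × N))) (lam : Cardinal.{0}) : Prop where
  nonempty : K.Nonempty
  backForth : IsBackForth L K
  bound : ∀ C ⊆ K, C.Countable → IsChain (· ⊆ ·) C → ∃ q ∈ K, ∀ p ∈ C, p ⊆ q
  large : ∀ k ∈ K, ∃ b, lam ≤ #{b' | ∃ k' ∈ K, k ⊆ k' ∧ (b, b') ∈ k'}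

variable {L}

theorem isSystem_comp (σ : Strategy L M N) (K : Set (Set (N × N))) (lam : Cardinal.{0})
    (hK : IsLiberal L K lam) :
    IsSystem L ({s : Stg M N // Leg s} × K) (fun s t => Ext s.1.1 t.1.1 ∧ s.2.1 ⊆ t.2.1)
      (fun s => comp s.2.1 (σ.at s.1.1)) := by
  refine ⟨fun s => ⟨Ext.refl _, Subset.rfl⟩, fun s t r h1 h2 => ⟨h1.1.trans h2.1, h1.2.trans h2.2⟩,
    fun s => comp_pos (hK.backForth.pos _ s.2.2) (σ.pos _ s.1.2 _),
    fun s t h => comp_mono h.2 (σ.at_mono h.1 t.1.2), ?_, ?_⟩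
  · intro α g hg
    have h1 : Leg (lim α fun β hβ => (g β hβ).1.1) := lim_leg _ _ fun β hβ => (g β hβ).1.2
    obtain ⟨q, hq, hq2⟩ := hK.bound (⋃ β : Iio α, {(g β.1 β.2).2.1}) (by
      rintro p hp
      obtain ⟨β, rfl⟩ := mem_iUnion.1 hp
      exact (g β.1 β.2).2.2) (by
      have : Countable (Iio α) := ((K1.iic α).mono Iio_subset_Iic_self).to_subtype
      exact countable_iUnion fun β => countable_singleton _) (by
      rintro p hp p' hp' -
      obtain ⟨β, rfl⟩ := mem_iUnion.1 hp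
      obtain ⟨β', rfl⟩ := mem_iUnion.1 hp'
      rcases le_total β.1 β'.1 with h | h
      · exact Or.inl (hg _ _ _ _ h).2
      · exact Or.inr (hg _ _ _ _ h).2)
    refine ⟨(⟨_, h1⟩, ⟨q, hq⟩), fun β hβ => ⟨?_, hq2 _ (mem_iUnion.2 ⟨⟨β, hβ⟩, rfl⟩)⟩⟩
    exact ext_lim α (fun β hβ => (g β hβ).1.1) (fun β hβ β' hβ' h => (hg β hβ β' hβ' h).1) β hβ
  · rintro ⟨⟨s, hs⟩, ⟨k, hk⟩⟩ c hc
    obtain ⟨k1, hk1, hkk1, hcov1⟩ := hK.backForth.ext k hk (∅, c.2) ⟨countable_empty, hc.2⟩
    obtain ⟨t, ht, hst, hcov2⟩ := exists_stage_covers σ s hs (c.1, Prod.fst '' k1)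
      ⟨hc.1, (hK.backForth.pos _ hk1).countable.image _⟩
    obtain ⟨k2, hk2, hkk2, hcov3⟩ := hK.backForth.ext k1 hk1 (Prod.snd '' σ.at t, ∅)
      ⟨(σ.pos _ ht _).countable.image _, countable_empty⟩
    refine ⟨(⟨t, ht⟩, ⟨k2, hk2⟩), ⟨hst, hkk1.trans hkk2⟩, ?_, ?_⟩
    · intro a ha
      obtain ⟨⟨a', b⟩, hz, rfl⟩ := hcov2.1 ha
      obtain ⟨⟨b', d⟩, hz', hb'⟩ := hcov3.1 ⟨(a', b), hz, rfl⟩
      change b' = b at hb'
      rw [hb'] at hz'
      exact ⟨(a', d), ⟨b, hz, hz'⟩, rfl⟩
    · intro d hd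
      obtain ⟨⟨b, d'⟩, hz, hd'⟩ := hcov1.2 hd
      change d' = d at hd'
      rw [hd'] at hz
      obtain ⟨⟨a, b'⟩, hz', hb'⟩ := hcov2.2 ⟨(b, d), hz, rfl⟩
      change b' = b at hb'
      rw [hb'] at hz'
      exact ⟨(a, d), ⟨b, hz', hkk2 hz⟩, rfl⟩

/-- if `N` is liberal, then winning strategies give closed back-and-forth sets -/
theorem bfEquiv_of_liberal (lam : Cardinal.{0}) (h0 : ℵ₀ ≤ lam) (h1 : lam ^ ℵ₀ = lam)
    (hM : #M ≤ lam) (hN : #N = lam) (K : Set (Set (N × N))) (hK : IsLiberal L K lam)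
    (σ : Strategy L M N) : BFEquiv L M N := by
  classical
  obtain ⟨e, he, hsurj⟩ := exists_enum (M := N) (N := M) lam h0 h1 hN hM
  obtain ⟨k0, hk0⟩ := hK.nonempty
  refine bfEquiv_of_system (isSystem_comp σ K lam hK)
    ⟨(⟨(fun _ => (∅, ∅), Classical.choice inferInstance),
      fun _ => ⟨countable_empty, countable_empty⟩⟩, ⟨k0, hk0⟩)⟩
    (fun i => ((e i).2, (e i).1)) (fun i => ⟨(he i).2, (he i).1⟩) ?_ ?_
  · intro c hc
    obtain ⟨i, hi⟩ := hsurj (c.2, c.1) ⟨hc.2, hc.1⟩
    exact ⟨i, by rw [hi]⟩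
  · rintro ⟨⟨s, hs⟩, ⟨k, hk⟩⟩
    obtain ⟨b, hb⟩ := hK.large k hk
    rw [← hN] at hb
    obtain ⟨f⟩ := Cardinal.le_def _ _ |>.1 hb
    obtain ⟨t, ht, hst, hcov⟩ := exists_stage_covers σ s hs (∅, {b})
      ⟨countable_empty, countable_singleton _⟩
    obtain ⟨⟨a, b'⟩, hz, hb'⟩ := hcov.2 (mem_singleton b)
    change b' = b at hb'
    rw [hb'] at hz
    have hch : ∀ i : N, ∃ k' ∈ K, k ⊆ k' ∧ (b, (f i).1) ∈ k' := fun i => (f i).2
    choose k' hk'1 hk'2 hk'3 using hch
    refine ⟨fun i => (⟨t, ht⟩, ⟨k' i, hk'1 i⟩), fun i => ⟨hst, hk'2 i⟩, ?_⟩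
    rintro i j hij ⟨⟨r, hr⟩, ⟨k'', hk''⟩⟩ h3 h4
    have h5 := h3 (show (a, (f i).1) ∈ comp (k' i) (σ.at t) from ⟨b, hz, hk'3 i⟩)
    have h6 := h4 (show (a, (f j).1) ∈ comp (k' j) (σ.at t) from ⟨b, hz, hk'3 j⟩)
    have h7 := (comp_pos (hK.backForth.pos _ hk'') (σ.pos _ hr _)).fst_inj _ _ _ h5 h6
    exact hij (f.injective (Subtype.ext h7))

end Helper71.BF
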