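import Pool.Agent.Helper71.BF.Sys

/-!
# Suslin trees from undecided isomorphisms

A winning strategy with the chain condition whose positions decide the images of all sets of fewer
than `lam` elements gives an isomorphism or a `lam`-Suslin tree.
-/

open Set Cardinal FirstOrder FirstOrder.Language

namespace Helper71.BF

/-- `T` with the order `lt` is a `lam`-Suslin tree: a tree (sets of predecessors are well ordered)
of cardinality `lam` without chains and antichains of cardinality `lam` -/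
structure IsSuslinTree (lam : Cardinal.{0}) (T : Type) (lt : T → T → Prop) : Prop where
  irrefl : ∀ t, ¬ lt t t
  trans : ∀ s t u, lt s t → lt t u → lt s u
  wellOrdered : ∀ t, IsWellOrder {s // lt s t} fun s s' => lt s.1 s'.1
  card : #T = lam
  chain : ∀ C : Set T, (∀ s ∈ C, ∀ t ∈ C, s ≠ t → lt s t ∨ lt t s) → #C < lam
  antichain : ∀ A : Set T, (∀ s ∈ A, ∀ t ∈ A, s ≠ t → ¬ lt s t ∧ ¬ lt t s) → #A < lam

/-- the position `q` decides the images of the elements of `X`: any two elements of `S` which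
extend `q` agree on `X` -/
def Decides {M N : Type} (S : Set (Set (M × N))) (q : Set (M × N)) (X : Set M) : Prop :=
  ∀ r ∈ S, ∀ r' ∈ S, q ⊆ r → q ⊆ r' → ∀ x ∈ X, ∀ y y', (x, y) ∈ r → (x, y') ∈ r' → y = y'

variable {L : FirstOrder.Language.{0, 0}} {M N : Type} [L.Structure M] [L.Structure N]

theorem after_isBackForth (σ : Strategy L M N) (c : K1 → Set M × Set N) (α : K1) :
    IsBackForth L (σ.After c α) := by
  refine ⟨fun p hp => After.pos hp, ?_⟩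
  rintro p ⟨c', hc', hag, β, hβ, rfl⟩ d hd
  obtain ⟨t, ht, hst, hcov⟩ := exists_stage_covers σ (c', β) hc' d hd
  refine ⟨σ.at t, ⟨t.1, ht, fun ξ hξ => (hag ξ hξ).trans (hst.2 ξ (hξ.trans hβ)), t.2,
    hβ.trans hst.1, rfl⟩, σ.at_mono hst ht, hcov⟩

theorem mk_Iic_lt (lam : Cardinal.{0}) (h0 : ℵ₀ ≤ lam) (a : lam.ord.ToType) :
    #(Iic a) < lam := by
  have h := Cardinal.mk_Iio_lt (α := lam.ord.ToType) a (by
    rw [Cardinal.mk_ord_toType, Ordinal.type_toType])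
  rw [Cardinal.mk_ord_toType] at h
  rw [← Iio_insert]
  exact (Cardinal.mk_insert_le).trans_lt
    (Cardinal.add_lt_of_lt h0 h (Cardinal.one_lt_aleph0.trans_le h0))

/-- bounds in `lam` for fewer than `lam` elements -/
theorem bdd_of_card_lt (lam : Cardinal.{0}) (hreg : lam.IsRegular) (h0 : ℵ₀ ≤ lam)
    {X : Type} (hX : #X < lam) (f : X → lam.ord.ToType) : ∃ b, ∀ x, f x < b := by
  have h1 : #(⋃ x, Iic (f x)) < lam :=
    (Cardinal.card_iUnion_lt_iff_forall_of_isRegular hreg hX).2 fun x => mk_Iic_lt lam h0 _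
  have h2 : (⋃ x, Iic (f x)) ≠ (Set.univ : Set lam.ord.ToType) := by
    intro h
    rw [h, Cardinal.mk_univ, Cardinal.mk_ord_toType] at h1
    exact lt_irrefl _ h1
  obtain ⟨b, hb⟩ := (Set.ne_univ_iff_exists_notMem _).1 h2
  refine ⟨b, fun x => ?_⟩
  by_contra hcon
  exact hb (mem_iUnion.2 ⟨x, not_lt.1 hcon⟩)

theorem cover_pair {S : Set (Set (M × N))} (hS : IsBackForth L S) {p : Set (M × N)} (hp : p ∈ S) (x : M) :
    ∃ q ∈ S, p ⊆ q ∧ ∃ y, (x, y) ∈ q := by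
  obtain ⟨q, hq, hpq, hc⟩ := hS.ext p hp ({x}, ∅) ⟨countable_singleton x, countable_empty⟩
  obtain ⟨⟨x', y⟩, hz, rfl⟩ := hc.1 (mem_singleton x)
  exact ⟨q, hq, hpq, y, hz⟩

/-- an isomorphism of `M` and `N`, with enough countable substructures, gives a closed
back-and-forth set -/
theorem bfEquiv_of_iso {F : Set (M × N)} (hF : IsIso L F) (htot : ∀ x, ∃ y, (x, y) ∈ F)
    (hsur : ∀ y, ∃ x, (x, y) ∈ F)
    (hcl : ∀ X : Set M, X.Countable → ∃ X' : Set M, X ⊆ X' ∧ X'.Countable ∧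
      ∀ (n : ℕ) (G : L.Functions n) (x : Fin n → M), (∀ i, x i ∈ X') →
        Structure.funMap G x ∈ X') : BFEquiv L M N := by
  classical
  choose g hg using hsur
  have hI : ∀ X : Set M, X.Countable → ∃ q : Set (M × N), IsPos L q ∧ q ⊆ F ∧
      ∀ x ∈ X, ∀ y, (x, y) ∈ F → (x, y) ∈ q := by
    intro X hX
    obtain ⟨X', hXX, hX', hcl'⟩ := hcl X hX
    refine ⟨{z | z ∈ F ∧ z.1 ∈ X'}, ⟨?_, ?_, ?_, ?_, ?_⟩, fun z hz => hz.1,
      fun x hx y hy => ⟨hy, hXX hx⟩⟩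
    · intro x y y' h1 h2
      exact hF.fst_inj _ _ _ h1.1 h2.1
    · intro x x' y h1 h2
      exact hF.snd_inj _ _ _ h1.1 h2.1
    · intro n G x y hxy
      exact ⟨hF.map_fun n G x y fun i => (hxy i).1, hcl' n G x fun i => (hxy i).2⟩
    · intro n r x y hxy
      exact hF.map_rel n r x y fun i => (hxy i).1
    · refine Set.countable_of_injective_of_countable_image (f := Prod.fst) ?_
        (hX'.mono (by rintro _ ⟨z, hz, rfl⟩; exact hz.2))
      rintro ⟨x, y⟩ h1 ⟨x', y'⟩ h2 h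
      change x = x' at h
      subst h
      rw [hF.fst_inj _ _ _ h1.1 h2.1]
  refine ⟨{p | IsPos L p ∧ p ⊆ F}, ⟨fun p hp => hp.1, ?_⟩, ?_⟩
  · rintro p ⟨hp, hpF⟩ d hd
    obtain ⟨q, hq, hqF, hc⟩ := hI (Prod.fst '' p ∪ (d.1 ∪ g '' d.2))
      ((hp.countable.image _).union (hd.1.union (hd.2.image g)))
    refine ⟨q, ⟨hq, hqF⟩, ?_, ?_, ?_⟩
    · rintro ⟨x, y⟩ hz
      exact hc x (Or.inl ⟨(x, y), hz, rfl⟩) y (hpF hz)
    · intro x hx
      obtain ⟨y, hy⟩ := htot x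
      exact ⟨(x, y), hc x (Or.inr (Or.inl hx)) y hy, rfl⟩
    · intro y hy
      exact ⟨(g y, y), hc (g y) (Or.inr (Or.inr ⟨y, hy, rfl⟩)) y (hg y), rfl⟩
  · intro C hC hcount hch
    rcases C.eq_empty_or_nonempty with rfl | hCne
    · obtain ⟨q, hq, hqF, -⟩ := hI ∅ countable_empty
      exact ⟨q, ⟨hq, hqF⟩, fun p hp => absurd hp (notMem_empty p)⟩
    · exact ⟨⋃₀ C, ⟨isPos_sUnion hCne hch hcount fun p hp => (hC hp).1,
        sUnion_subset fun p hp => (hC hp).2⟩, fun p hp => subset_sUnion_of_mem hp⟩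

/-- the chain condition of `S` -/
def CC (S : Set (Set (M × N))) (lam : Cardinal.{0}) : Prop :=
  ∀ A ⊆ S, (∀ p ∈ A, ∀ q ∈ A, p ≠ q → ¬ ∃ r ∈ S, p ⊆ r ∧ q ⊆ r) → #A < lam

/-- the values on `X` decided by `q` -/
def val (S : Set (Set (M × N))) (q : Set (M × N)) (X : Set M) : Set (M × N) :=
  {z | z.1 ∈ X ∧ ∃ r ∈ S, q ⊆ r ∧ z ∈ r}

section Tree

variable {lam : Cardinal.{0}} {X : lam.ord.ToType → Set M} {S : Set (Set (M × N))}

/-- nodes: decided values on the `X α` -/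
abbrev Vd (lam : Cardinal.{0}) (X : lam.ord.ToType → Set M) (S : Set (Set (M × N))) : Type :=
  {t : lam.ord.ToType × Set (M × N) // ∃ q ∈ S, Decides S q (X t.1) ∧ t.2 = val S q (X t.1)}

/-- the tree order: restriction -/
def vdLt (s t : Vd lam X S) : Prop :=
  s.1.1 < t.1.1 ∧ s.1.2 = {z | z ∈ t.1.2 ∧ z.1 ∈ X s.1.1}

theorem vdLt_unique {s s' t : Vd lam X S} (h1 : vdLt s t) (h2 : vdLt s' t)
    (h : s.1.1 = s'.1.1) : s = s' := by
  refine Subtype.ext (Prod.ext h ?_)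
  rw [h1.2, h2.2, h]

theorem restrict_restrict {Y Y' : Set M} (h : Y ⊆ Y') (f : Set (M × N)) :
    {z | z ∈ {z | z ∈ f ∧ z.1 ∈ Y'} ∧ z.1 ∈ Y} = {z | z ∈ f ∧ z.1 ∈ Y} := by
  ext z
  exact ⟨fun hz => ⟨hz.1.1, hz.2⟩, fun hz => ⟨⟨hz.1, h hz.2⟩, hz.2⟩⟩

theorem vdLt_trans (hX : ∀ α β, α ≤ β → X α ⊆ X β) (s t u : Vd lam X S) (h1 : vdLt s t)
    (h2 : vdLt t u) : vdLt s u := by
  refine ⟨h1.1.trans h2.1, ?_⟩
  rw [h1.2, h2.2]
  exact restrict_restrict (hX _ _ h1.1.le) _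

theorem vdLt_iff (hX : ∀ α β, α ≤ β → X α ⊆ X β) {s s' t : Vd lam X S}
    (h1 : vdLt s t) (h2 : vdLt s' t) : vdLt s s' ↔ s.1.1 < s'.1.1 := by
  refine ⟨fun h => h.1, fun h => ⟨h, ?_⟩⟩
  rw [h1.2, h2.2]
  exact (restrict_restrict (hX _ _ h.le) _).symm

theorem vd_wellOrdered (hX : ∀ α β, α ≤ β → X α ⊆ X β) (t : Vd lam X S) :
    IsWellOrder {s // vdLt s t} fun s s' => vdLt s.1 s'.1 := by
  have hinj : ∀ s s' : {s // vdLt s t}, s.1.1.1 = s'.1.1.1 → s = s' := fun s s' h =>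
    Subtype.ext (vdLt_unique s.2 s'.2 h)
  have hiff : ∀ s s' : {s // vdLt s t}, vdLt s.1 s'.1 ↔ s.1.1.1 < s'.1.1.1 :=
    fun s s' => vdLt_iff hX s.2 s'.2
  let f : (fun s s' : {s // vdLt s t} => vdLt s.1 s'.1) ↪r
      (fun x y : lam.ord.ToType => x < y) :=
    ⟨⟨fun s => s.1.1.1, fun s s' h => hinj s s' h⟩, fun {s s'} => (hiff s s').symm⟩
  exact f.isWellOrder

theorem Decides.mono {q : Set (M × N)} {Y Y' : Set M} (h : Decides S q Y') (hY : Y ⊆ Y') :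
    Decides S q Y := fun r hr r' hr' h1 h2 x hx => h r hr r' hr' h1 h2 x (hY hx)

/-- if `r` extends `q`, `q'`, deciding `Y ⊆ Y'`, then the value of `q` is the restriction of the
value of `q'` -/
theorem val_eq (hS : IsBackForth L S) {q q' r : Set (M × N)}
    {Y Y' : Set M} (hY : Y ⊆ Y') (hdq : Decides S q Y) (hdq' : Decides S q' Y') (hr : r ∈ S)
    (h1 : q ⊆ r) (h2 : q' ⊆ r) : val S q Y = {z | z ∈ val S q' Y' ∧ z.1 ∈ Y} := by
  ext ⟨x, y⟩
  constructor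
  · rintro ⟨hx, r1, hr1, hqr1, hz⟩
    change x ∈ Y at hx
    obtain ⟨r2, hr2, hrr2, y2, hy2⟩ := cover_pair hS hr x
    have h3 := hdq r1 hr1 r2 hr2 hqr1 (h1.trans hrr2) x hx y y2 hz hy2
    rw [h3]
    exact ⟨⟨hY hx, r2, hr2, h2.trans hrr2, hy2⟩, hx⟩
  · rintro ⟨⟨-, r1, hr1, hqr1, hz⟩, hx⟩
    change x ∈ Y at hx
    obtain ⟨r2, hr2, hrr2, y2, hy2⟩ := cover_pair hS hr x
    have h3 := hdq' r1 hr1 r2 hr2 hqr1 (h2.trans hrr2) x (hY hx) y y2 hz hy2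
    rw [h3]
    exact ⟨hx, r2, hr2, h1.trans hrr2, hy2⟩

theorem vd_antichain (hX : ∀ α β, α ≤ β → X α ⊆ X β) (hS : IsBackForth L S) (hcc : CC S lam)
    (A : Set (Vd lam X S)) (hA : ∀ s ∈ A, ∀ t ∈ A, s ≠ t → ¬ vdLt s t ∧ ¬ vdLt t s) :
    #A < lam := by
  classical
  have hch : ∀ t : A, ∃ q ∈ S, Decides S q (X t.1.1.1) ∧ t.1.1.2 = val S q (X t.1.1.1) :=
    fun t => t.1.2
  choose P hP1 hP2 hP3 using hch
  have hinc : ∀ s t : A, s ≠ t → ¬ ∃ r ∈ S, P s ⊆ r ∧ P t ⊆ r := by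
    rintro s t hst ⟨r, hr, h1, h2⟩
    have hne : s.1 ≠ t.1 := fun h => hst (Subtype.ext h)
    have h5 := hA s.1 s.2 t.1 t.2 hne
    rcases lt_trichotomy s.1.1.1 t.1.1.1 with h | h | h
    · refine h5.1 ⟨h, ?_⟩
      rw [hP3 s, hP3 t]
      exact val_eq hS (hX _ _ h.le) (hP2 s) (hP2 t) hr h1 h2
    · apply hne
      refine Subtype.ext (Prod.ext h ?_)
      rw [hP3 s, hP3 t, val_eq hS (hX _ _ h.le) (hP2 s) (hP2 t) hr h1 h2]
      ext z
      exact ⟨fun hz => hz.1, fun hz => ⟨hz, by rw [h]; exact hz.1⟩⟩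
    · refine h5.2 ⟨h, ?_⟩
      rw [hP3 s, hP3 t]
      exact val_eq hS (hX _ _ h.le) (hP2 t) (hP2 s) hr h2 h1
  have hinj : Function.Injective P := by
    intro s t h
    by_contra hne
    exact hinc s t hne ⟨P s, hP1 s, Subset.rfl, by rw [h]⟩
  have h1 : #(range P) < lam := by
    refine hcc (range P) (by rintro _ ⟨t, rfl⟩; exact hP1 t) ?_
    rintro _ ⟨s, rfl⟩ _ ⟨t, rfl⟩ hne
    exact hinc s t fun h => hne (by rw [h])
  rwa [Cardinal.mk_range_eq P hinj] at h1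

theorem vd_card (hne : S.Nonempty) (h0 : ℵ₀ ≤ lam) (hcard : #S ≤ lam)
    (hdec : ∀ p ∈ S, ∀ α, ∃ q ∈ S, p ⊆ q ∧ Decides S q (X α)) : #(Vd lam X S) = lam := by
  classical
  apply le_antisymm
  · have hch : ∀ t : Vd lam X S, ∃ q : S, Decides S q.1 (X t.1.1) ∧
        t.1.2 = val S q.1 (X t.1.1) := by
      rintro ⟨t, q, hq, h1, h2⟩
      exact ⟨⟨q, hq⟩, h1, h2⟩
    choose P hP1 hP2 using hch
    have hinj : Function.Injective fun t : Vd lam X S => (t.1.1, P t) := by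
      intro s t h
      have h1 : s.1.1 = t.1.1 := congrArg (fun w => w.1) h
      have h2 : P s = P t := congrArg (fun w => w.2) h
      refine Subtype.ext (Prod.ext h1 ?_)
      rw [hP2 s, hP2 t, h1, h2]
    refine (Cardinal.mk_le_of_injective hinj).trans ?_
    rw [Cardinal.mk_prod, Cardinal.lift_id, Cardinal.lift_id, Cardinal.mk_ord_toType]
    exact (mul_le_mul_right hcard lam).trans_eq (Cardinal.mul_eq_self h0)
  · obtain ⟨p, hp⟩ := hne
    have hch : ∀ β : lam.ord.ToType, ∃ t : Vd lam X S, t.1.1 = β := by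
      intro β
      obtain ⟨q, hq, -, hd⟩ := hdec p hp β
      exact ⟨⟨(β, val S q (X β)), q, hq, hd, rfl⟩, rfl⟩
    choose f hf using hch
    have hinj : Function.Injective f := by
      intro β β' h
      rw [← hf β, ← hf β', h]
    have h1 := Cardinal.mk_le_of_injective hinj
    rwa [Cardinal.mk_ord_toType] at h1

/-- the map given by a chain -/
def VF (C : Set (Vd lam X S)) : Set (M × N) := {z | ∃ t ∈ C, z ∈ t.1.2}

/-- the properties of the chain `C` which are used -/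
structure IsVBranch (lam : Cardinal.{0}) (X : lam.ord.ToType → Set M) (S : Set (Set (M × N)))
    (C : Set (Vd lam X S)) : Prop where
  total : ∀ s ∈ C, ∀ t ∈ C, s ≠ t → vdLt s t ∨ vdLt t s
  unbdd : ∀ β, ∃ t ∈ C, β < t.1.1

theorem isVBranch_of_card (h0 : ℵ₀ ≤ lam) {C : Set (Vd lam X S)}
    (hC : ∀ s ∈ C, ∀ t ∈ C, s ≠ t → vdLt s t ∨ vdLt t s)
    (hcard : lam ≤ #C) : IsVBranch lam X S C := by
  refine ⟨hC, fun β => ?_⟩
  by_contra hcon
  push Not at hcon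
  have h1 : #C ≤ #(Iic β) := by
    refine Cardinal.mk_le_of_injective (f := fun t : C => ⟨t.1.1.1, hcon t.1 t.2⟩) ?_
    intro s t h
    by_contra hne
    have h2 : s.1.1.1 = t.1.1.1 := congrArg Subtype.val h
    rcases hC s.1 s.2 t.1 t.2 (fun h3 => hne (Subtype.ext h3)) with h3 | h3
    · exact absurd h3.1 (by rw [h2]; exact lt_irrefl _)
    · exact absurd h3.1 (by rw [h2]; exact lt_irrefl _)
  exact absurd (hcard.trans h1) (not_le.2 (mk_Iic_lt lam h0 β))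

theorem IsVBranch.exists_of_lt (hreg : lam.IsRegular) (h0 : ℵ₀ ≤ lam)
    (hcof : ∀ x, ∃ β, ∀ α, β ≤ α → x ∈ X α) {C : Set (Vd lam X S)} (hC : IsVBranch lam X S C)
    (Y : Set M) (hY : #Y < lam) : ∃ t ∈ C, Y ⊆ X t.1.1 := by
  choose f hf using hcof
  obtain ⟨b, hb⟩ := bdd_of_card_lt lam hreg h0 hY fun x => f x.1
  obtain ⟨t, ht, hbt⟩ := hC.unbdd b
  exact ⟨t, ht, fun x hx => hf x _ ((hb ⟨x, hx⟩).trans hbt).le⟩

/-- a node decided by `q`, and a position above `q` -/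
theorem IsVBranch.unique {C : Set (Vd lam X S)} (hC : IsVBranch lam X S C) {x : M} {y y' : N}
    (hxy : (x, y) ∈ VF C) {t : Vd lam X S} (ht : t ∈ C) (hx : x ∈ X t.1.1)
    {q r : Set (M × N)} (hq : Decides S q (X t.1.1)) (hval : t.1.2 = val S q (X t.1.1))
    (hr : r ∈ S) (hqr : q ⊆ r) (hxr : (x, y') ∈ r) : y = y' := by
  have hmem : (x, y') ∈ t.1.2 := by
    rw [hval]
    exact ⟨hx, r, hr, hqr, hxr⟩
  have hfun : ∀ z z', (x, z) ∈ t.1.2 → (x, z') ∈ t.1.2 → z = z' := by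
    intro z z' h1 h2
    rw [hval] at h1 h2
    obtain ⟨-, r1, hr1, hq1, h3⟩ := h1
    obtain ⟨-, r2, hr2, hq2, h4⟩ := h2
    exact hq r1 hr1 r2 hr2 hq1 hq2 x hx _ _ h3 h4
  obtain ⟨t', ht', hx'⟩ := hxy
  rcases eq_or_ne t t' with rfl | hne
  · exact hfun _ _ hx' hmem
  · rcases hC.total t ht t' ht' hne with h | h
    · refine hfun _ _ ?_ hmem
      rw [h.2]
      exact ⟨hx', hx⟩
    · refine hfun _ _ ?_ hmem
      rw [h.2] at hx'
      exact hx'.1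

theorem IsVBranch.exists_cover (hreg : lam.IsRegular) (hlam : ℵ₀ < lam)
    (hcof : ∀ x, ∃ β, ∀ α, β ≤ α → x ∈ X α) (hS : IsBackForth L S)
    {C : Set (Vd lam X S)} (hC : IsVBranch lam X S C) (Y : Set M) (hY : Y.Countable) :
    ∃ t ∈ C, Y ⊆ X t.1.1 ∧ ∃ q, Decides S q (X t.1.1) ∧ t.1.2 = val S q (X t.1.1) ∧
      ∃ r ∈ S, q ⊆ r ∧ Y ⊆ Prod.fst '' r := by
  obtain ⟨t, ht, hYt⟩ := hC.exists_of_lt hreg hlam.le hcof Y
    ((Cardinal.le_aleph0_iff_set_countable.2 hY).trans_lt hlam)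
  obtain ⟨q, hq, hd, hv⟩ := t.2
  obtain ⟨r, hr, hqr, hc⟩ := hS.ext q hq (Y, ∅) ⟨hY, countable_empty⟩
  exact ⟨t, ht, hYt, q, hd, hv, r, hr, hqr, hc.1⟩

theorem IsVBranch.isIso (hreg : lam.IsRegular) (hlam : ℵ₀ < lam)
    (hcof : ∀ x, ∃ β, ∀ α, β ≤ α → x ∈ X α) (hS : IsBackForth L S)
    {C : Set (Vd lam X S)} (hC : IsVBranch lam X S C) : IsIso L (VF C) := by
  -- a position which agrees with `VF C` on a countable set
  have key : ∀ Y : Set M, Y.Countable → ∃ t ∈ C, ∃ q r, r ∈ S ∧ q ⊆ r ∧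
      t.1.2 = val S q (X t.1.1) ∧ Y ⊆ X t.1.1 ∧ (∀ x ∈ Y, ∃ y, (x, y) ∈ r) ∧
      ∀ x ∈ Y, ∀ y, (x, y) ∈ VF C → (x, y) ∈ r := by
    intro Y hY
    obtain ⟨t, ht, hYt, q, hd, hv, r, hr, hqr, hc⟩ := hC.exists_cover hreg hlam hcof hS Y hY
    refine ⟨t, ht, q, r, hr, hqr, hv, hYt, ?_, ?_⟩
    · intro x hx
      obtain ⟨⟨x1, y1⟩, hz1, rfl⟩ := hc hx
      exact ⟨y1, hz1⟩
    · intro x hx y hxy
      obtain ⟨⟨x1, y1⟩, hz1, e1⟩ := hc hx
      change x1 = x at e1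
      rw [e1] at hz1
      rw [hC.unique hxy ht (hYt hx) hd hv hr hqr hz1]
      exact hz1
  refine ⟨?_, ?_, ?_, ?_⟩
  · intro x y y' h1 h2
    obtain ⟨t, ht, q, r, hr, hqr, hv, hYt, -, hc⟩ := key {x} (countable_singleton x)
    exact (hS.pos r hr).fst_inj _ _ _ (hc x rfl y h1) (hc x rfl y' h2)
  · intro x x' y h1 h2
    obtain ⟨t, ht, q, r, hr, hqr, hv, hYt, -, hc⟩ := key {x, x'}
      ((countable_singleton _).insert _)
    exact (hS.pos r hr).snd_inj _ _ _ (hc x (mem_insert _ _) y h1)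
      (hc x' (mem_insert_of_mem _ rfl) y h2)
  · intro n F x y hxy
    obtain ⟨t, ht, q, r, hr, hqr, hv, hYt, -, hc⟩ := key
      (insert (Structure.funMap F x) (range x)) ((countable_range x).insert _)
    have h1 : ∀ i, (x i, y i) ∈ r := fun i => hc _ (mem_insert_of_mem _ ⟨i, rfl⟩) _ (hxy i)
    refine ⟨t, ht, ?_⟩
    rw [hv]
    exact ⟨hYt (mem_insert _ _), r, hr, hqr, (hS.pos r hr).map_fun n F x y h1⟩
  · intro n R x y hxy
    obtain ⟨t, ht, q, r, hr, hqr, hv, hYt, -, hc⟩ := key (range x) (countable_range x)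
    exact (hS.pos r hr).map_rel n R x y fun i => hc _ ⟨i, rfl⟩ _ (hxy i)

theorem IsVBranch.exists_image (hreg : lam.IsRegular) (hlam : ℵ₀ < lam)
    (hcof : ∀ x, ∃ β, ∀ α, β ≤ α → x ∈ X α) (hS : IsBackForth L S)
    {C : Set (Vd lam X S)} (hC : IsVBranch lam X S C) (x : M) : ∃ y, (x, y) ∈ VF C := by
  obtain ⟨t, ht, hYt, q, hd, hv, r, hr, hqr, hc⟩ := hC.exists_cover hreg hlam hcof hS {x}
    (countable_singleton x)
  obtain ⟨⟨x1, y1⟩, hz1, rfl⟩ := hc (mem_singleton x)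
  refine ⟨y1, t, ht, ?_⟩
  rw [hv]
  exact ⟨hYt (mem_singleton x1), r, hr, hqr, hz1⟩

theorem IsVBranch.exists_preimage (hreg : lam.IsRegular) (hlam : ℵ₀ < lam)
    (hcof : ∀ x, ∃ β, ∀ α, β ≤ α → x ∈ X α) (hS : IsBackForth L S)
    {C : Set (Vd lam X S)} (hC : IsVBranch lam X S C) (y : N)
    (hy : #{x | ∃ p ∈ S, (x, y) ∈ p} < lam) : ∃ x, (x, y) ∈ VF C := by
  obtain ⟨t, ht, hYt⟩ := hC.exists_of_lt hreg hlam.le hcof _ hy
  obtain ⟨q, hq, hd, hv⟩ := t.2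
  obtain ⟨r, hr, hqr, hc⟩ := hS.ext q hq (∅, {y}) ⟨countable_empty, countable_singleton y⟩
  obtain ⟨⟨x1, y1⟩, hz1, rfl⟩ := hc.2 (mem_singleton y)
  refine ⟨x1, t, ht, ?_⟩
  rw [hv]
  exact ⟨hYt ⟨r, hr, hz1⟩, r, hr, hqr, hz1⟩

end Tree

/-- the trichotomy -/
theorem trichotomy (lam : Cardinal.{0}) (h0 : ℵ₀ ≤ lam) (h1 : lam ^ ℵ₀ = lam)
    (hreg : lam.IsRegular) (hM : #M = lam) (hN : #N ≤ lam) (σ : Strategy L M N) :
    BFEquiv L M N ∨ (∃ (T : Type) (lt : T → T → Prop), IsSuslinTree lam T lt) ∨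
      ∃ c α, (∀ ξ, Legal (c ξ)) ∧ σ.ChainCondition c α lam ∧ ∃ p ∈ σ.After c α,
        ∃ X : Set M, #X < lam ∧ ∀ q ∈ σ.After c α, p ⊆ q → ¬ Decides (σ.After c α) q X := by
  classical
  have hlam : ℵ₀ < lam := by
    calc ℵ₀ < 2 ^ ℵ₀ := Cardinal.cantor _
      _ ≤ lam ^ ℵ₀ := Cardinal.power_le_power_right
        ((Cardinal.natCast_lt_aleph0 (n := 2)).le.trans h0)
      _ = lam := h1
  rcases dichotomy lam h0 h1 hM hN σ with h | ⟨c, α, hc, hcc⟩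
  · exact Or.inl h
  set S := σ.After c α with hSdef
  have hS : IsBackForth L S := after_isBackForth σ c α
  have hne : S.Nonempty := ⟨σ.ans c α, c, hc, fun _ _ => rfl, α, le_rfl, rfl⟩
  by_cases hdec : ∀ p ∈ S, ∀ X : Set M, #X < lam → ∃ q ∈ S, p ⊆ q ∧ Decides S q X
  swap
  · push Not at hdec
    obtain ⟨p, hp, X, hX, h2⟩ := hdec
    exact Or.inr (Or.inr ⟨c, α, hc, hcc, p, hp, X, hX, h2⟩)
  -- a filtration of `M`
  obtain ⟨e⟩ : Nonempty (lam.ord.ToType ≃ M) := by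
    rw [← Cardinal.eq, Cardinal.mk_ord_toType, hM]
  let X : lam.ord.ToType → Set M := fun β => e '' Iic β
  have hX : ∀ β γ, β ≤ γ → X β ⊆ X γ := fun β γ h => image_mono (Iic_subset_Iic.2 h)
  have hXc : ∀ β, #(X β) < lam := fun β =>
    (Cardinal.mk_image_le).trans_lt (mk_Iic_lt lam h0 β)
  have hcof : ∀ x, ∃ β, ∀ γ, β ≤ γ → x ∈ X γ := fun x =>
    ⟨e.symm x, fun γ hγ => ⟨e.symm x, hγ, e.apply_symm_apply x⟩⟩
  have hdec' : ∀ p ∈ S, ∀ β, ∃ q ∈ S, p ⊆ q ∧ Decides S q (X β) := fun p hp β =>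
    hdec p hp (X β) (hXc β)
  have hScard : #S ≤ lam := by
    have h2 : #(M × N) ≤ lam := by
      rw [Cardinal.mk_prod, Cardinal.lift_id, Cardinal.lift_id, hM]
      exact (mul_le_mul_right hN lam).trans_eq (Cardinal.mul_eq_self h0)
    refine le_trans ?_ (mk_countable_le (M × N) lam h0 h1 h2)
    exact Cardinal.mk_le_of_injective
      (f := fun p : S => (⟨p.1, (hS.pos p.1 p.2).countable⟩ : {p : Set (M × N) // p.Countable}))
      (fun p q h => Subtype.ext (congrArg (fun t => t.1) h))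
  by_cases hch : ∀ C : Set (Vd lam X S),
      (∀ s ∈ C, ∀ t ∈ C, s ≠ t → vdLt s t ∨ vdLt t s) → #C < lam
  · exact Or.inr (Or.inl ⟨Vd lam X S, vdLt, fun t h => lt_irrefl _ h.1,
      fun s t u => vdLt_trans hX s t u, fun t => vd_wellOrdered hX t,
      vd_card hne h0 hScard hdec', hch, fun A hA => vd_antichain hX hS hcc A hA⟩)
  · push Not at hch
    obtain ⟨C, hC, hcard⟩ := hch
    have hB : IsVBranch lam X S C := isVBranch_of_card h0 hC hcard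
    refine Or.inl (bfEquiv_of_iso (hB.isIso hreg hlam hcof hS)
      (fun x => hB.exists_image hreg hlam hcof hS x)
      (fun y => hB.exists_preimage hreg hlam hcof hS y (preimages_lt σ c α lam hcc y)) ?_)
    intro Y hY
    obtain ⟨p, hp⟩ := hne
    obtain ⟨q, hq, -, hcov⟩ := hS.ext p hp (Y, ∅) ⟨hY, countable_empty⟩
    refine ⟨Prod.fst '' q, hcov.1, (hS.pos q hq).countable.image _, ?_⟩
    intro n G x hx
    choose z hz hzx using hx
    have h2 : (fun i => (z i).1) = x := funext hzx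
    have h3 := (hS.pos q hq).map_fun n G (fun i => (z i).1) (fun i => (z i).2) hz
    rw [h2] at h3
    exact ⟨_, h3, rfl⟩

end Helper71.BF
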