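import Pool.Agent.Helper71.BF.Tri

/-!
# Guided pairs
-/

open Set Cardinal FirstOrder FirstOrder.Language

namespace Helper71.BF

/-- the pair `M`, `N` is guided by the elements `a α` and the sets `H α`: every element of `M` is
in all `H α` from some `α` on, and in every back-and-forth set the image of `a α` determines the
images of the elements of `H α` -/
structure IsGuided (L : FirstOrder.Language.{0, 0}) (M N : Type) [L.Structure M] [L.Structure N]
    (lam : Cardinal.{0}) (a : lam.ord.ToType → M) (H : lam.ord.ToType → Set M) : Prop where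
  cof : ∀ x, ∃ β, ∀ α, β ≤ α → x ∈ H α
  det : ∀ I : Set (Set (M × N)), IsBackForth L I → ∀ α b, ∀ p ∈ I, ∀ q ∈ I, (a α, b) ∈ p →
    (a α, b) ∈ q → ∀ x ∈ H α, ∀ y y', (x, y) ∈ p → (x, y') ∈ q → y = y'

/-- the trichotomy for structures `M`, `N` with `#M = lam` and `#N ≤ lam` -/
def Trichotomy (L : FirstOrder.Language.{0, 0}) (lam : Cardinal.{0}) : Prop :=
  ∀ (M N : Type) [L.Structure M] [L.Structure N], #M = lam → #N ≤ lam → ∀ σ : Strategy L M N,
    BFEquiv L M N ∨ (∃ (T : Type) (lt : T → T → Prop), IsSuslinTree lam T lt) ∨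
      ∃ c α, (∀ ξ, Legal (c ξ)) ∧ σ.ChainCondition c α lam ∧ ∃ p ∈ σ.After c α,
        ∃ X : Set M, #X < lam ∧ ∀ q ∈ σ.After c α, p ⊆ q → ¬ Decides (σ.After c α) q X

theorem trichotomy' (L : FirstOrder.Language.{0, 0}) (lam : Cardinal.{0}) (h0 : ℵ₀ ≤ lam)
    (h1 : lam ^ ℵ₀ = lam) (hreg : lam.IsRegular) : Trichotomy L lam :=
  fun _ _ _ _ hM hN σ => trichotomy lam h0 h1 hreg hM hN σ

variable {L : FirstOrder.Language.{0, 0}} {M N : Type} [L.Structure M] [L.Structure N]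

theorem guided_decides (lam : Cardinal.{0}) (h0 : ℵ₀ ≤ lam) (hreg : lam.IsRegular)
    {a : lam.ord.ToType → M} {H : lam.ord.ToType → Set M} (hg : IsGuided L M N lam a H)
    {S : Set (Set (M × N))} (hS : IsBackForth L S) {p : Set (M × N)} (hp : p ∈ S)
    (X : Set M) (hX : #X < lam) : ∃ q ∈ S, p ⊆ q ∧ Decides S q X := by
  choose f hf using hg.cof
  obtain ⟨b, hb⟩ := bdd_of_card_lt lam hreg h0 hX fun x => f x.1
  obtain ⟨q, hq, hpq, y, hy⟩ := cover_pair hS hp (a b)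
  refine ⟨q, hq, hpq, ?_⟩
  intro r hr r' hr' h1 h2 x hx y1 y2 h3 h4
  exact hg.det S hS b y r hr r' hr' (h1 hy) (h2 hy) x (hf x b (hb ⟨x, hx⟩).le) y1 y2 h3 h4

theorem agree_of_guided (lam : Cardinal.{0}) (h0 : ℵ₀ ≤ lam) (h1 : lam ^ ℵ₀ = lam)
    (hreg : lam.IsRegular)
    (hsus : ¬ ∃ (T : Type) (lt : T → T → Prop), IsSuslinTree lam T lt)
    (hM : #M = lam) (hN : #N ≤ lam) {a : lam.ord.ToType → M} {H : lam.ord.ToType → Set M}
    (hg : IsGuided L M N lam a H) : Nonempty (Strategy L M N) ↔ BFEquiv L M N := by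
  refine ⟨fun ⟨σ⟩ => ?_, strategy_of_bfEquiv⟩
  rcases trichotomy lam h0 h1 hreg hM hN σ with h | h | ⟨c, α, -, -, p, hp, X, hX, h⟩
  · exact h
  · exact absurd h hsus
  · obtain ⟨q, hq, hpq, hd⟩ := guided_decides lam h0 hreg hg (after_isBackForth σ c α) hp X hX
    exact absurd hd (h q hq hpq)

end Helper71.BF
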